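import Pool.Agent.Helper46.AK.Dyn

set_option autoImplicit false

namespace Pool.Agent.Helper46.AK

open Filter Topology Polynomial

/-- shift operator -/
noncomputable def Sft : Module.End ℂ (ℕ → ℂ) where
  toFun x n := x (n + 1)
  map_add' _ _ := rfl
  map_smul' _ _ := rfl

lemma Sft_apply (x : ℕ → ℂ) (n : ℕ) : Sft x n = x (n + 1) := rfl

lemma Sft_pow_apply (i : ℕ) (x : ℕ → ℂ) (n : ℕ) : (Sft ^ i) x n = x (n + i) := by
  induction i generalizing n with
  | zero => rfl
  | succ i ih =>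
    rw [pow_succ', Module.End.mul_apply, Sft_apply, ih]
    congr 1; ring

lemma stable_seq (ρ : ℝ) (hρ0 : 0 < ρ) (hρ1 : ρ < 1) (s : Multiset ℂ) (hs : ∀ β ∈ s, ‖β‖ < ρ) :
    ∃ C : ℝ, 1 ≤ C ∧ ∀ (x : ℕ → ℂ) (K : ℝ), 0 ≤ K →
      (aeval Sft ((s.map (fun β => X - Polynomial.C β)).prod)) x = 0 →
      (∀ n < s.card, ‖x n‖ ≤ K) → ∀ n, ‖x n‖ ≤ C * K * ρ ^ n := by
  induction s using Multiset.induction with
  | empty =>
    refine ⟨1, le_rfl, fun x K hK hx _ n => ?_⟩
    simp only [Multiset.map_zero, Multiset.prod_zero, map_one, Module.End.one_apply] at hx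
    rw [hx]
    simp only [Pi.zero_apply, norm_zero]
    positivity
  | cons β s ih =>
    obtain ⟨C, hC1, hC⟩ := ih fun b hb => hs b (Multiset.mem_cons_of_mem hb)
    have hβ := hs β (Multiset.mem_cons_self β s)
    have hβ' : 0 < ρ - ‖β‖ := by linarith
    refine ⟨max 1 (2 * C / (ρ - ‖β‖)), le_max_left _ _, fun x K hK hx hxK => ?_⟩
    set y : ℕ → ℂ := (aeval Sft (X - Polynomial.C β)) x with hy
    have hyn : ∀ n, y n = x (n + 1) - β * x n := by
      intro n
      rw [hy, map_sub, aeval_X, aeval_C]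
      simp [Sft_apply]
    have hy0 : (aeval Sft ((s.map (fun β => X - Polynomial.C β)).prod)) y = 0 := by
      rw [Multiset.map_cons, Multiset.prod_cons, mul_comm, map_mul, Module.End.mul_apply] at hx
      exact hx
    have hyK : ∀ n < s.card, ‖y n‖ ≤ 2 * K := by
      intro n hn
      rw [hyn]
      refine (norm_sub_le _ _).trans ?_
      rw [norm_mul]
      have h1 := hxK (n + 1) (by rw [Multiset.card_cons]; omega)
      have h2 := hxK n (by rw [Multiset.card_cons]; omega)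
      have h3 : ‖β‖ * ‖x n‖ ≤ 1 * K := by
        have := norm_nonneg (x n)
        have := norm_nonneg β
        gcongr
        linarith
      linarith
    have hyb := hC y (2 * K) (by linarith) hy0 hyK
    set C' := max 1 (2 * C / (ρ - ‖β‖)) with hC'
    have hC'1 : 1 ≤ C' := le_max_left _ _
    have hC'2 : 2 * C ≤ C' * (ρ - ‖β‖) := by
      rw [← div_le_iff₀ hβ']; exact le_max_right _ _
    intro n
    induction n with
    | zero =>
      have := hxK 0 (by rw [Multiset.card_cons]; omega)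
      rw [pow_zero, mul_one]
      nlinarith
    | succ n ihn =>
      have e : x (n + 1) = β * x n + y n := by rw [hyn]; ring
      rw [e]
      refine (norm_add_le _ _).trans ?_
      rw [norm_mul]
      have h1 := hyb n
      have hρn : 0 < ρ ^ n := pow_pos hρ0 n
      have h2 : ‖β‖ * ‖x n‖ ≤ ‖β‖ * (C' * K * ρ ^ n) :=
        mul_le_mul_of_nonneg_left ihn (norm_nonneg _)
      have h3 : 0 ≤ K * ρ ^ n := by positivity
      have h4 := mul_le_mul_of_nonneg_right hC'2 h3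
      rw [pow_succ]
      nlinarith

lemma exists_rho (s : Multiset ℂ) (hs : ∀ β ∈ s, ‖β‖ < 1) :
    ∃ ρ : ℝ, 0 < ρ ∧ ρ < 1 ∧ ∀ β ∈ s, ‖β‖ < ρ := by
  induction s using Multiset.induction with
  | empty => exact ⟨1 / 2, by norm_num, by norm_num, by simp⟩
  | cons β s ih =>
    obtain ⟨ρ, h1, h2, h3⟩ := ih fun b hb => hs b (Multiset.mem_cons_of_mem hb)
    have hβ := hs β (Multiset.mem_cons_self β s)
    refine ⟨max ρ ((1 + ‖β‖) / 2), lt_max_of_lt_left h1, max_lt h2 (by linarith), fun b hb => ?_⟩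
    rw [Multiset.mem_cons] at hb
    rcases hb with rfl | hb
    · exact lt_max_of_lt_right (by linarith)
    · exact lt_max_of_lt_left (h3 b hb)

section Companion

variable (m : ℕ) (P Q : ℝ[X]) (α : ℝ)

/-- companion map -/
noncomputable def cT : (Fin (m + 1) → ℝ) →ₗ[ℝ] (Fin (m + 1) → ℝ) where
  toFun z := Fin.snoc (α := fun _ => ℝ) (fun i : Fin m => z i.succ)
    (- ∑ j : Fin (m + 1), P.coeff j * z j)
  map_add' x y := by
    funext i
    refine Fin.lastCases ?_ (fun i => ?_) i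
    · simp only [Fin.snoc_last, Pi.add_apply, mul_add, Finset.sum_add_distrib, neg_add]
    · simp only [Fin.snoc_castSucc, Pi.add_apply]
  map_smul' c x := by
    funext i
    refine Fin.lastCases ?_ (fun i => ?_) i
    · simp only [Fin.snoc_last, Pi.smul_apply, smul_eq_mul, RingHom.id_apply, mul_neg,
        Finset.mul_sum]
      congr 1
      exact Finset.sum_congr rfl fun j _ => by ring
    · simp only [Fin.snoc_castSucc, Pi.smul_apply, smul_eq_mul, RingHom.id_apply]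

lemma cT_castSucc (z : Fin (m + 1) → ℝ) (i : Fin m) : cT m P z i.castSucc = z i.succ := by
  simp only [cT, LinearMap.coe_mk, AddHom.coe_mk, Fin.snoc_castSucc]

lemma cT_last (z : Fin (m + 1) → ℝ) :
    cT m P z (Fin.last m) = - ∑ j : Fin (m + 1), P.coeff j * z j := by
  simp only [cT, LinearMap.coe_mk, AddHom.coe_mk, Fin.snoc_last]

/-- left eigenfunctional -/
noncomputable def cφ : (Fin (m + 1) → ℝ) →ₗ[ℝ] ℝ where
  toFun z := (∑ j : Fin (m + 1), Q.coeff j * z j) / Q.eval α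
  map_add' x y := by
    simp only [Pi.add_apply, mul_add, Finset.sum_add_distrib, add_div]
  map_smul' c x := by
    simp only [Pi.smul_apply, smul_eq_mul, RingHom.id_apply]
    rw [← mul_div_assoc, Finset.mul_sum]
    congr 1
    exact Finset.sum_congr rfl fun j _ => by ring

def cv : Fin (m + 1) → ℝ := fun i => α ^ (i : ℕ)

variable {m P Q α}

lemma cφ_apply (z : Fin (m + 1) → ℝ) :
    cφ m Q α z = (∑ j : Fin (m + 1), Q.coeff j * z j) / Q.eval α := rfl

lemma eval_eq_sum_fin (hQ : Q.natDegree = m) (x : ℝ) :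
    Q.eval x = ∑ j : Fin (m + 1), Q.coeff j * x ^ (j : ℕ) := by
  rw [eval_eq_sum_range, hQ, Finset.sum_range]

lemma cT_cv (hP : P.Monic) (hPm : P.natDegree = m + 1) (hroot : P.eval α = 0) :
    cT m P (cv m α) = α • cv m α := by
  funext i
  refine Fin.lastCases ?_ (fun i => ?_) i
  · rw [cT_last]
    have h1 : P.eval α = ∑ j ∈ Finset.range (m + 1), P.coeff j * α ^ j + α ^ (m + 1) := by
      rw [eval_eq_sum_range, hPm, Finset.sum_range_succ]
      have : P.coeff (m + 1) = 1 := by rw [← hPm]; exact hP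
      rw [this, one_mul]
    rw [hroot, Finset.sum_range] at h1
    simp only [cv, Pi.smul_apply, smul_eq_mul, Fin.val_last]
    rw [pow_succ] at h1
    linarith
  · rw [cT_castSucc]
    simp only [cv, Pi.smul_apply, smul_eq_mul, Fin.val_succ, Fin.val_castSucc]
    rw [pow_succ, mul_comm]

lemma cφ_cT (hPQ : P = (X - Polynomial.C α) * Q) (hQ : Q.Monic) (hQm : Q.natDegree = m)
    (z : Fin (m + 1) → ℝ) : cφ m Q α (cT m P z) = α * cφ m Q α z := by
  rw [cφ_apply, cφ_apply, ← mul_div_assoc]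
  congr 1
  rw [Fin.sum_univ_castSucc, cT_last]
  simp only [cT_castSucc, Fin.val_castSucc, Fin.val_last]
  have hm1 : Q.coeff m = 1 := by rw [← hQm]; exact hQ
  rw [hm1, one_mul, Fin.sum_univ_succ (n := m), Fin.sum_univ_succ (n := m)]
  have h0 : P.coeff ((0 : Fin (m + 1)) : ℕ) = - α * Q.coeff 0 := by
    rw [hPQ, sub_mul, coeff_sub, coeff_C_mul]
    simp
  have hs : ∀ j : Fin m, P.coeff (j.succ : ℕ) = Q.coeff j - α * Q.coeff (j.succ : ℕ) := by
    intro j
    rw [hPQ, sub_mul, coeff_sub, coeff_C_mul]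
    simp
  rw [h0]
  simp only [hs]
  rw [mul_add, Finset.mul_sum]
  have : ∑ i : Fin m, (Q.coeff i - α * Q.coeff (i.succ : ℕ)) * z i.succ =
      ∑ i : Fin m, Q.coeff i * z i.succ - ∑ i : Fin m, α * (Q.coeff (i.succ : ℕ) * z i.succ) := by
    rw [← Finset.sum_sub_distrib]
    exact Finset.sum_congr rfl fun i _ => by ring
  rw [this]
  simp only [Fin.val_zero]
  ring

lemma cφ_cv (hQm : Q.natDegree = m) (hα : Q.eval α ≠ 0) : cφ m Q α (cv m α) = 1 := by
  rw [cφ_apply, eval_eq_sum_fin hQm] 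
  simp only [cv]
  rw [← eval_eq_sum_fin hQm]
  exact div_self hα

lemma cT_pow_apply (z : Fin (m + 1) → ℝ) (n : ℕ) (i : Fin (m + 1)) :
    ((cT m P) ^ n) z i = ((cT m P) ^ (n + i)) z 0 := by
  refine Fin.induction (motive := fun i => ∀ n, ((cT m P) ^ n) z i = ((cT m P) ^ (n + i)) z 0)
    (fun n => rfl) (fun i ih n => ?_) i n
  have h1 := ih (n + 1)
  rw [Fin.val_succ]
  rw [pow_succ', Module.End.mul_apply, cT_castSucc] at h1
  have e : n + 1 + ((i.castSucc : Fin (m + 1)) : ℕ) = n + ((i : ℕ) + 1) := by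
    simp only [Fin.val_castSucc]; ring
  rw [h1, e]

lemma cphi_pow (hPQ : P = (X - Polynomial.C α) * Q) (hQ : Q.Monic) (hQm : Q.natDegree = m)
    (z : Fin (m + 1) → ℝ) (n : ℕ) : cφ m Q α (((cT m P) ^ n) z) = α ^ n * cφ m Q α z := by
  induction n with
  | zero => simp
  | succ n ih => rw [pow_succ', Module.End.mul_apply, cφ_cT hPQ hQ hQm, ih, pow_succ]; ring

lemma stable_exists (hPQ : P = (X - Polynomial.C α) * Q) (hQ : Q.Monic) (hQm : Q.natDegree = m)
    (hα : Q.eval α ≠ 0) (hr : ∀ β ∈ (Q.map (algebraMap ℝ ℂ)).roots, ‖β‖ < 1) :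
    ∃ ρ C : ℝ, 0 < ρ ∧ ρ < 1 ∧ 1 ≤ C ∧ ∀ (n : ℕ) (z : Fin (m + 1) → ℝ),
      ‖((cT m P) ^ n) (z - cφ m Q α z • cv m α)‖ ≤ C * ρ ^ n * ‖z‖ := by
  obtain ⟨ρ, hρ0, hρ1, hρ⟩ := exists_rho _ hr
  obtain ⟨C, hC1, hC⟩ := stable_seq ρ hρ0 hρ1 _ hρ
  set f : (Fin (m + 1) → ℝ) →ₗ[ℝ] (Fin (m + 1) → ℝ) :=
    LinearMap.id - (cφ m Q α).smulRight (cv m α) with hf
  have hfz : ∀ z, f z = z - cφ m Q α z • cv m α := fun z => by simp [hf]
  set K₂ := ‖LinearMap.toContinuousLinearMap f‖ with hK₂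
  have hK : ∀ z, ‖f z‖ ≤ K₂ * ‖z‖ := fun z => (LinearMap.toContinuousLinearMap f).le_opNorm z
  refine ⟨ρ, max 1 (C * K₂), hρ0, hρ1, le_max_left _ _, fun n z => ?_⟩
  rw [← hfz]
  set w := f z with hw
  have hφw : cφ m Q α w = 0 := by
    rw [hw, hfz, map_sub, map_smul, cφ_cv hQm hα]; simp
  have hcard : (Q.map (algebraMap ℝ ℂ)).roots.card = m := by
    have h1 := (IsAlgClosed.splits (Q.map (algebraMap ℝ ℂ))).natDegree_eq_card_roots
    rw [← h1, natDegree_map, hQm]
  have hprod : ((Q.map (algebraMap ℝ ℂ)).roots.map (fun β => X - Polynomial.C β)).prod =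
      Q.map (algebraMap ℝ ℂ) := by
    have h1 := (IsAlgClosed.splits (Q.map (algebraMap ℝ ℂ))).eq_prod_roots_of_monic
      (hQ.map _)
    exact h1.symm
  set x : ℕ → ℝ := fun n => ((cT m P) ^ n) w 0 with hx
  have hrec : (aeval Sft (((Q.map (algebraMap ℝ ℂ)).roots.map
      (fun β => X - Polynomial.C β)).prod)) (fun n => (x n : ℂ)) = 0 := by
    rw [hprod, aeval_eq_sum_range, natDegree_map, hQm]
    funext k
    have h1 := cphi_pow hPQ hQ hQm w k
    rw [hφw, mul_zero, cφ_apply, div_eq_zero_iff, or_iff_left hα] at h1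
    rw [LinearMap.sum_apply, Finset.sum_apply, Finset.sum_range]
    have h2 : ∀ i : Fin (m + 1), ((Q.map (algebraMap ℝ ℂ)).coeff i • Sft ^ (i : ℕ))
        (fun n => (x n : ℂ)) k = ((Q.coeff i * ((cT m P) ^ k) w i : ℝ) : ℂ) := by
      intro i
      rw [LinearMap.smul_apply, Pi.smul_apply, Sft_pow_apply, coeff_map, cT_pow_apply]
      simp [hx]
    rw [Finset.sum_congr rfl fun i _ => h2 i, ← Complex.ofReal_sum, h1]
    simp
  have hinit : ∀ n < (Q.map (algebraMap ℝ ℂ)).roots.card, ‖((x n : ℝ) : ℂ)‖ ≤ ‖w‖ := by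
    intro n hn
    rw [hcard] at hn
    rw [Complex.norm_real]
    have h1 := cT_pow_apply (P := P) w 0 ⟨n, by omega⟩
    simp only [pow_zero, Module.End.one_apply, zero_add] at h1
    simp only [hx]
    rw [← h1]
    exact norm_le_pi_norm w _
  have hb := hC (fun n => (x n : ℂ)) ‖w‖ (norm_nonneg _) hrec hinit
  have hmain : ‖((cT m P) ^ n) w‖ ≤ C * ‖w‖ * ρ ^ n := by
    rw [pi_norm_le_iff_of_nonneg (by positivity)]
    intro i
    rw [cT_pow_apply]
    have h1 := hb (n + i)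
    simp only [Complex.norm_real] at h1
    refine h1.trans ?_
    have : ρ ^ (n + (i : ℕ)) ≤ ρ ^ n := pow_le_pow_of_le_one hρ0.le hρ1.le (by omega)
    gcongr
  refine hmain.trans ?_
  have h3 := hK z
  calc C * ‖w‖ * ρ ^ n ≤ C * (K₂ * ‖z‖) * ρ ^ n := by gcongr
    _ = (C * K₂) * ρ ^ n * ‖z‖ := by ring
    _ ≤ max 1 (C * K₂) * ρ ^ n * ‖z‖ := by gcongr; exact le_max_right _ _

end Companion

end Pool.Agent.Helper46.AK
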