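import Pool.Agent.Helper46.AK.Concat

set_option autoImplicit false

namespace Pool.Agent.Helper46.AK

open Filter Topology

variable {d : ℕ}

/-- `l` is the upper limit of the sequence `x`. -/
def IsLS (l : ℝ) (x : ℕ → ℝ) : Prop :=
  (∀ s > l, ∀ᶠ n in atTop, x n ≤ s) ∧ (∀ s < l, ∃ᶠ n in atTop, s < x n)

lemma isLS_limsup {x : ℕ → ℝ} {A B : ℝ} (hA : ∀ n, A ≤ x n) (hB : ∀ n, x n ≤ B) :
    IsLS (limsup x atTop) x := by
  have hb1 : IsBoundedUnder (· ≤ ·) atTop x := isBoundedUnder_of ⟨B, hB⟩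
  have hb2 : IsBoundedUnder (· ≥ ·) atTop x := isBoundedUnder_of ⟨A, hA⟩
  refine ⟨fun s hs => ?_, fun s hs => ?_⟩
  · exact (eventually_lt_of_limsup_lt hs hb1).mono fun n hn => hn.le
  · exact frequently_lt_of_lt_limsup hb2.isCoboundedUnder_le hs

lemma IsLS.le_of_le {l B : ℝ} {x : ℕ → ℝ} (h : IsLS l x) (hB : ∀ n, x n ≤ B) : l ≤ B := by
  by_contra hcon
  obtain ⟨n, hn⟩ := (h.2 B (not_le.1 hcon)).exists
  exact absurd hn (not_lt.2 (hB n))

lemma IsLS.ge_of_ge {l A : ℝ} {x : ℕ → ℝ} (h : IsLS l x) (hA : ∀ n, A ≤ x n) : A ≤ l := by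
  by_contra hcon
  obtain ⟨s, hs1, hs2⟩ := exists_between (not_le.1 hcon)
  obtain ⟨n, hn⟩ := (h.1 s hs1).exists
  have := hA n
  linarith

lemma IsLS.unique {l l' : ℝ} {x : ℕ → ℝ} (h : IsLS l x) (h' : IsLS l' x) : l = l' := by
  apply le_antisymm
  · by_contra hcon
    obtain ⟨s, hs1, hs2⟩ := exists_between (not_le.1 hcon)
    obtain ⟨n, hn1, hn2⟩ := ((h.2 s hs2).and_eventually (h'.1 s hs1)).exists
    linarith
  · by_contra hcon
    obtain ⟨s, hs1, hs2⟩ := exists_between (not_le.1 hcon)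
    obtain ⟨n, hn1, hn2⟩ := ((h'.2 s hs2).and_eventually (h.1 s hs1)).exists
    linarith

/-- a binary sequence containing all finite patterns arbitrarily far out -/
def univ (p : ℕ) : Bool := Nat.testBit (Nat.sqrt p) (p - Nat.sqrt p ^ 2)

lemma univ_spec (k m N : ℕ) : ∃ p ≥ N, ∀ i < m, univ (p + i) = Nat.testBit k i := by
  set n := k + 2 ^ m * (N + m) with hn
  have hnN : N + m ≤ n := by
    have : 1 * (N + m) ≤ 2 ^ m * (N + m) := Nat.mul_le_mul_right _ Nat.one_le_two_pow
    omega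
  refine ⟨n * n, ?_, fun i hi => ?_⟩
  · nlinarith
  · have h1 : Nat.sqrt (n * n + i) = n := Nat.sqrt_add_eq n (by omega)
    unfold univ
    rw [h1]
    have h2 : n * n + i - n ^ 2 = i := by rw [pow_two]; omega
    rw [h2, hn]
    have h3 : k + 2 ^ m * (N + m) = k + (N + m) * 2 ^ m := by ring
    have h4 := Nat.testBit_mod_two_pow (k + 2 ^ m * (N + m)) m i
    have h5 := Nat.testBit_mod_two_pow k m i
    have h6 : (k + 2 ^ m * (N + m)) % 2 ^ m = k % 2 ^ m := Nat.add_mul_mod_self_left _ _ _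
    rw [h6] at h4
    rw [h5] at h4
    simpa [hi] using h4.symm

variable (D : HData d)

/-- the dynamical spectrum -/
def HData.SS : Set ℝ := {l | ∃ (u : ℕ → ℤ) (z : ℕ → (Fin d → ℝ)),
  (∀ n, z (n + 1) = D.T (z n) + (u n : ℝ) • D.e) ∧ IsLS l (fun n => ‖z n‖)}

namespace HData

variable {D}

lemma SS_nonneg {l : ℝ} (h : l ∈ D.SS) : 0 ≤ l := by
  obtain ⟨u, z, -, h⟩ := h
  exact h.ge_of_ge fun n => norm_nonneg _

lemma chain {t : ℝ} (ht : 0 ≤ t) (ht2 : t < 1 / 2) (hpos : 0 < h (D := D) ht) :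
    ∃ (l : ℝ) (hl : 0 ≤ l), l < t ∧ 0 < h (D := D) hl ∧ l ∈ D.SS := by
  classical
  obtain ⟨μ, hμ, H⟩ := exists_pair ht ht2 hpos
  have hC := D.Cpos
  have hρ1 := D.hρ1
  have h1a : 1 / D.a < 1 := by rw [div_lt_one D.apos]; exact D.ha
  have q1 : 0 < 1 - 1 / D.a := by linarith
  have q2 : 0 < 1 - D.ρ := by linarith
  set δ : ℝ := min (μ / 4 * (1 - 1 / D.a) / (D.C + 1)) (μ / 4 * (1 - D.ρ) / D.C) with hδdef
  have hδ : 0 < δ := lt_min (by positivity) (by positivity)
  have hδ1 : (D.C + 1) * δ / (1 - 1 / D.a) ≤ μ / 4 := by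
    rw [div_le_iff₀ q1]
    have : δ ≤ μ / 4 * (1 - 1 / D.a) / (D.C + 1) := min_le_left _ _
    rw [le_div_iff₀ (by linarith)] at this
    linarith
  have hδ2 : D.C * δ / (1 - D.ρ) ≤ μ / 4 := by
    rw [div_le_iff₀ q2]
    have : δ ≤ μ / 4 * (1 - D.ρ) / D.C := min_le_right _ _
    rw [le_div_iff₀ hC] at this
    linarith
  obtain ⟨L, V, z, hL, ho, ⟨n0, hn0, hVn0⟩, hm, hc⟩ := H δ hδ
  obtain ⟨Z, hZ1, hZ2⟩ := concat_orbit hμ hδ hδ1 hδ2 hL ho hm hc univ
  set l := limsup (fun n => ‖Z n‖) atTop with hl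
  have hls : IsLS l (fun n => ‖Z n‖) := isLS_limsup (fun n => norm_nonneg _) hZ2
  have hl0 : 0 ≤ l := hls.ge_of_ge fun n => norm_nonneg _
  have hlt : l < t := by
    have h1 := hls.le_of_le hZ2
    have : 0 < μ / 4 * D.ρ ^ L := by have := D.hρ0; positivity
    linarith
  -- growth
  have hgrow : ∀ m, 2 ^ m ≤ D.W l (m * L) := by
    intro m
    obtain ⟨s, hs1, hs2⟩ := ((Lang_right (D := D) (t := l) (m * L)).and
      self_mem_nhdsWithin).exists
    obtain ⟨N0, hN0⟩ := eventually_atTop.1 (hls.1 s hs2)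
    rw [← card_LF]
    set wk : ℕ → (ℕ → ℤ) := fun k => tr (m * L) (fun n => V (Nat.testBit k (n / L)) (n % L))
      with hwk
    have hmem : ∀ k, wk k ∈ D.LF l (m * L) := by
      intro k
      rw [mem_LF]
      apply hs1
      apply tr_mem
      obtain ⟨p, hp1, hp2⟩ := univ_spec k m N0
      refine ⟨fun n => Z (p * L + n), fun n hn => ?_, fun n hn => ?_⟩
      · apply hN0
        nlinarith
      · have e := hZ1 (p * L + n)
        have e1 : (p * L + n) / L = p + n / L := by
          rw [mul_comm, Nat.mul_add_div hL]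
        have e2 : (p * L + n) % L = n % L := by
          rw [mul_comm, Nat.mul_add_mod]
        have e3 : n / L < m := by rw [Nat.div_lt_iff_lt_mul hL]; exact hn
        rw [e1, e2, hp2 _ e3] at e
        exact e
    have hinj : Set.InjOn wk (Finset.range (2 ^ m) : Set ℕ) := by
      intro k hk k' hk' hkk
      rw [Finset.mem_coe, Finset.mem_range] at hk hk'
      by_contra hne
      have : ∃ i, Nat.testBit k i ≠ Nat.testBit k' i := by
        by_contra hcon
        push Not at hcon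
        exact hne (Nat.eq_of_testBit_eq hcon)
      obtain ⟨i, hi⟩ := this
      have him : i < m := by
        by_contra hcon
        have h2 : 2 ^ m ≤ 2 ^ i := Nat.pow_le_pow_right (by norm_num) (not_lt.1 hcon)
        rw [Nat.testBit_lt_two_pow (by omega), Nat.testBit_lt_two_pow (by omega)] at hi
        exact hi rfl
      have h1 := congrFun hkk (i * L + n0)
      have e1 : (i * L + n0) / L = i := by
        rw [mul_comm, Nat.mul_add_div hL, Nat.div_eq_of_lt hn0, add_zero]
      have e2 : (i * L + n0) % L = n0 := by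
        rw [mul_comm, Nat.mul_add_mod, Nat.mod_eq_of_lt hn0]
      have e3 : i * L + n0 < m * L := by
        have : (i + 1) * L ≤ m * L := Nat.mul_le_mul_right _ him
        have e : (i + 1) * L = i * L + L := by ring
        omega
      simp only [hwk, tr, e3, if_true, e1, e2] at h1
      cases hb : Nat.testBit k i <;> cases hb' : Nat.testBit k' i
      · rw [hb, hb'] at hi; exact hi rfl
      · rw [hb, hb'] at h1; exact hVn0 h1.symm
      · rw [hb, hb'] at h1; exact hVn0 h1
      · rw [hb, hb'] at hi; exact hi rfl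
    have := Finset.card_le_card_of_injOn wk (s := Finset.range (2 ^ m)) (t := D.LF l (m * L))
      (fun k _ => hmem k) hinj
    rwa [Finset.card_range] at this
  refine ⟨l, hl0, hlt, ?_, _, Z, hZ1, hls⟩
  have hLR : (0 : ℝ) < L := by exact_mod_cast hL
  have hlog2 : 0 < Real.log 2 := Real.log_pos (by norm_num)
  have htt : Tendsto (fun m : ℕ => m * L) atTop atTop :=
    tendsto_id.atTop_mul_const' hL
  have h1 := (h_tendsto (D := D) hl0).comp htt
  have h2 : Real.log 2 / L ≤ h (D := D) hl0 := by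
    refine ge_of_tendsto h1 ?_
    filter_upwards [eventually_ge_atTop 1] with m hm
    have hmR : (0 : ℝ) < m := by exact_mod_cast hm
    simp only [Function.comp]
    push_cast
    rw [div_le_div_iff₀ hLR (by positivity)]
    have h3 : (m : ℝ) * Real.log 2 ≤ Real.log (D.W l (m * L)) := by
      rw [← Real.log_pow]
      apply Real.log_le_log (by positivity)
      exact_mod_cast hgrow m
    nlinarith
  exact lt_of_lt_of_le (by positivity) h2

end HData

end Pool.Agent.Helper46.AK
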