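import Pool.Agent.Helper46.AK.Pair

set_option autoImplicit false

namespace Pool.Agent.Helper46.AK

open Filter Topology

variable {d : ℕ}

namespace HData

variable {D : HData d}

lemma concat_orbit {t μ δ : ℝ} (hμ : 0 < μ) (hδ : 0 < δ)
    (hδ1 : (D.C + 1) * δ / (1 - 1 / D.a) ≤ μ / 4) (hδ2 : D.C * δ / (1 - D.ρ) ≤ μ / 4)
    {L : ℕ} {V : Bool → ℕ → ℤ} {z : Bool → ℕ → (Fin d → ℝ)} (hL : 0 < L)
    (ho : ∀ b, D.Orb (V b) (z b) L t)
    (hm : ∀ b, ∀ j ≤ L, ‖z b j‖ ≤ t - μ * D.ρ ^ j ∧ ‖z b j‖ ≤ t - μ / D.a ^ (L - j))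
    (hc : ∀ b b', ‖z b L - z b' 0‖ ≤ δ) (b : ℕ → Bool) :
    ∃ Z : ℕ → (Fin d → ℝ), (∀ n, Z (n + 1) = D.T (Z n) + ((V (b (n / L)) (n % L) : ℤ) : ℝ) • D.e) ∧
      ∀ n, ‖Z n‖ ≤ t - μ / 4 * D.ρ ^ L := by
  have hapos := D.apos
  have ha1 := D.ha
  have hρ0 := D.hρ0
  have hρ1 := D.hρ1
  have hC := D.Cpos
  have hv1 := D.one_le_norm_v
  set s : ℝ := 1 / D.a ^ L with hs
  have haL : 0 < D.a ^ L := pow_pos hapos L
  have hs0 : 0 < s := by positivity
  have hs1 : s ≤ 1 / D.a := by
    rw [hs]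
    apply div_le_div_of_nonneg_left zero_le_one hapos
    calc D.a = D.a ^ 1 := (pow_one _).symm
      _ ≤ D.a ^ L := pow_le_pow_right₀ ha1.le hL
  have h1a : 1 / D.a < 1 := by rw [div_lt_one hapos]; exact ha1
  have hs2 : s < 1 := lt_of_le_of_lt hs1 h1a
  set g : ℕ → (Fin d → ℝ) := fun r => z (b r) L - z (b (r + 1)) 0 with hg
  have hgδ : ∀ r, ‖g r‖ ≤ δ := fun r => hc _ _
  set B : ℝ := (D.C + 1) * δ / ‖D.v‖ with hB
  have hB0 : 0 ≤ B := by positivity
  have hφg : ∀ r, |D.φ (g r)| ≤ B := by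
    intro r
    rw [hB, le_div_iff₀ (by linarith)]
    have := D.phi_bound (g r)
    have h2 := hgδ r
    nlinarith
  set f : ℕ → ℕ → ℝ := fun r m => D.φ (g (r + m)) * s ^ (m + 1) with hf
  have hgeo : HasSum (fun m : ℕ => B * s ^ (m + 1)) (B * s * (1 - s)⁻¹) := by
    have := (hasSum_geometric_of_lt_one hs0.le hs2).mul_left (B * s)
    refine this.congr_fun ?_ |> fun h => h
    intro m
    rw [pow_succ]; ring
  have hfb : ∀ r m, ‖f r m‖ ≤ B * s ^ (m + 1) := by
    intro r m
    simp only [hf]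
    rw [norm_mul, Real.norm_eq_abs, Real.norm_of_nonneg (by positivity)]
    exact mul_le_mul_of_nonneg_right (hφg _) (by positivity)
  have hsum : ∀ r, Summable (f r) := fun r => Summable.of_norm_bounded hgeo.summable (hfb r)
  set x : ℕ → ℝ := fun r => - ∑' m, f r m with hx
  have hxb : ∀ r, |x r| ≤ B * s * (1 - s)⁻¹ := by
    intro r
    simp only [hx]
    rw [abs_neg, ← Real.norm_eq_abs]
    exact tsum_of_norm_bounded hgeo (hfb r)
  have hxrec : ∀ r, x (r + 1) = D.a ^ L * x r + D.φ (g r) := by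
    intro r
    simp only [hx]
    rw [(hsum r).tsum_eq_zero_add]
    have h1 : ∀ m, f r (m + 1) = s * f (r + 1) m := by
      intro m
      simp only [hf]
      have : r + (m + 1) = r + 1 + m := by ring
      rw [this, pow_succ]; ring
    simp only [h1]
    rw [tsum_mul_left]
    have h2 : f r 0 = D.φ (g r) * s := by simp [hf]
    have h3 : D.a ^ L * s = 1 := by rw [hs]; field_simp
    rw [h2]
    linear_combination (D.φ (g r) + ∑' m, f (r + 1) m) * h3
  let y : ℕ → (Fin d → ℝ) := fun r => Nat.rec 0 (fun r yr =>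
    (D.T ^ L) yr + (g r - D.φ (g r) • D.v)) r
  have hy0 : y 0 = 0 := rfl
  have hyrec : ∀ r, y (r + 1) = (D.T ^ L) (y r) + (g r - D.φ (g r) • D.v) := fun r => rfl
  have hyb : ∀ r j, ‖(D.T ^ j) (y r)‖ ≤ D.C * δ / (1 - D.ρ) * D.ρ ^ j := by
    intro r
    induction r with
    | zero =>
      intro j
      rw [hy0, map_zero, norm_zero]
      have : 0 < 1 - D.ρ := by linarith
      positivity
    | succ r ih =>
      intro j
      rw [hyrec, map_add]
      have e1 : (D.T ^ j) ((D.T ^ L) (y r)) = (D.T ^ (j + L)) (y r) := by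
        rw [pow_add]; rfl
      rw [e1]
      refine (norm_add_le _ _).trans ?_
      have h1 := ih (j + L)
      have h2 := D.stable j (g r)
      have h3 := hgδ r
      have hρj : 0 < D.ρ ^ j := pow_pos hρ0 j
      have h4 : D.C * D.ρ ^ j * ‖g r‖ ≤ D.C * D.ρ ^ j * δ :=
        mul_le_mul_of_nonneg_left h3 (by positivity)
      have h5 : D.ρ ^ (j + L) ≤ D.ρ ^ j * D.ρ := by
        rw [← pow_succ]
        exact pow_le_pow_of_le_one hρ0.le hρ1.le (by omega)
      have h1ρ : 0 < 1 - D.ρ := by linarith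
      have h6 : D.C * δ / (1 - D.ρ) * D.ρ ^ (j + L) ≤ D.C * δ / (1 - D.ρ) * (D.ρ ^ j * D.ρ) :=
        mul_le_mul_of_nonneg_left h5 (by positivity)
      have h7 : D.C * δ / (1 - D.ρ) * (D.ρ ^ j * D.ρ) + D.C * D.ρ ^ j * δ =
          D.C * δ / (1 - D.ρ) * D.ρ ^ j := by
        field_simp; ring
      linarith
  set E : ℕ → (Fin d → ℝ) := fun r => x r • D.v + y r with hE
  have hErec : ∀ r, E (r + 1) = (D.T ^ L) (E r) + g r := by
    intro r
    simp only [hE]
    rw [hyrec, hxrec, map_add, map_smul, D.Tpow_v, smul_smul]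
    module
  refine ⟨fun n => z (b (n / L)) (n % L) + (D.T ^ (n % L)) (E (n / L)), fun n => ?_, fun n => ?_⟩
  · have hmod := Nat.mod_lt n hL
    have hdm := Nat.div_add_mod n L
    set r := n / L with hr
    set j := n % L with hj
    rcases Nat.lt_or_ge (j + 1) L with hlt | hge
    · have e1 : (n + 1) / L = r := by
        rw [← hdm, add_assoc, Nat.mul_add_div hL, Nat.div_eq_of_lt hlt, add_zero]
      have e2 : (n + 1) % L = j + 1 := by
        rw [← hdm, add_assoc, Nat.mul_add_mod, Nat.mod_eq_of_lt hlt]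
      simp only [e1, e2]
      change _ = D.T (z (b r) j + (D.T ^ j) (E r)) + ((V (b r) j : ℤ) : ℝ) • D.e
      rw [(ho (b r)).2 j hmod, pow_succ', Module.End.mul_apply, map_add D.T (z (b r) j)]
      abel
    · have hjL : j + 1 = L := by omega
      have e1 : (n + 1) / L = r + 1 := by
        have : n + 1 = L * (r + 1) := by rw [mul_add, mul_one]; omega
        rw [this, Nat.mul_div_cancel_left _ hL]
      have e2 : (n + 1) % L = 0 := by
        have : n + 1 = L * (r + 1) := by rw [mul_add, mul_one]; omega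
        rw [this, Nat.mul_mod_right]
      simp only [e1, e2]
      change _ = D.T (z (b r) j + (D.T ^ j) (E r)) + ((V (b r) j : ℤ) : ℝ) • D.e
      have e3 := (ho (b r)).2 j hmod
      rw [hjL] at e3
      have e4 : (D.T ^ L) (E r) = D.T ((D.T ^ j) (E r)) := by
        rw [← hjL, pow_succ', Module.End.mul_apply]
      rw [pow_zero, Module.End.one_apply, hErec, e4, map_add D.T (z (b r) j)]
      simp only [hg]
      rw [e3]
      abel
  · have hmod := Nat.mod_lt n hL
    set r := n / L with hr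
    set j := n % L with hj
    obtain ⟨m1, m2⟩ := hm (b r) j hmod.le
    refine (norm_add_le _ _).trans ?_
    have h1 : (D.T ^ j) (E r) = (x r * D.a ^ j) • D.v + (D.T ^ j) (y r) := by
      simp only [hE]
      rw [map_add, map_smul, D.Tpow_v, smul_smul]
    have h2 : ‖(D.T ^ j) (E r)‖ ≤ μ / 4 / D.a ^ (L - j) + μ / 4 * D.ρ ^ j := by
      rw [h1]
      refine (norm_add_le _ _).trans (add_le_add ?_ ?_)
      · rw [norm_smul, Real.norm_eq_abs, abs_mul, abs_of_pos (pow_pos hapos j)]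
        have haj : 0 < D.a ^ j := pow_pos hapos j
        have hvpos : 0 < ‖D.v‖ := by linarith
        have e1 : |x r| * D.a ^ j * ‖D.v‖ ≤ B * s * (1 - s)⁻¹ * D.a ^ j * ‖D.v‖ := by
          gcongr
          exact hxb r
        have hsplit : D.a ^ L = D.a ^ (L - j) * D.a ^ j := by
          rw [← pow_add]; congr 1; omega
        have e2 : B * s * (1 - s)⁻¹ * D.a ^ j * ‖D.v‖ =
            (D.C + 1) * δ * (1 - s)⁻¹ / D.a ^ (L - j) := by
          rw [hB, hs, hsplit]
          have : (1 - 1 / (D.a ^ (L - j) * D.a ^ j)) ≠ 0 := by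
            rw [← hsplit, ← hs]; linarith
          field_simp
        have e3 : (D.C + 1) * δ * (1 - s)⁻¹ ≤ (D.C + 1) * δ / (1 - 1 / D.a) := by
          rw [div_eq_mul_inv]
          have : 0 < 1 - 1 / D.a := by linarith
          gcongr
        rw [e2] at e1
        refine e1.trans ?_
        have : 0 < D.a ^ (L - j) := pow_pos hapos _
        gcongr
        exact e3.trans hδ1
      · refine (hyb r j).trans ?_
        gcongr
    have h3 : D.ρ ^ L ≤ D.ρ ^ j := pow_le_pow_of_le_one hρ0.le hρ1.le hmod.le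
    have h4 : μ / D.a ^ (L - j) = 4 * (μ / 4 / D.a ^ (L - j)) := by ring
    have h5 : 0 < μ / 4 / D.a ^ (L - j) := by positivity
    have h6 : μ / 4 * D.ρ ^ L ≤ μ / 4 * D.ρ ^ j := by gcongr
    rw [h4] at m2
    linarith

end HData

end Pool.Agent.Helper46.AK
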