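import Pool.Agent.Helper46.AK.Margin

set_option autoImplicit false

namespace Pool.Agent.Helper46.AK

open Filter Topology

variable {d : ℕ}

namespace HData

variable {D : HData d}

variable (D) in
open Classical in
/-- the set of extreme blocks -/
noncomputable def ext (t : ℝ) (J K : ℕ) (u : ℕ → ℤ) : Finset ℕ :=
  (Finset.range K).filter (fun k => ¬ D.NonExt t J k u)

variable (D) in
/-- the finite set of words -/
noncomputable def LF (t : ℝ) (N : ℕ) : Finset (ℕ → ℤ) := (Lang_finite (D := D) t N).toFinset

lemma mem_LF {t : ℝ} {N : ℕ} {u : ℕ → ℤ} : u ∈ D.LF t N ↔ u ∈ D.Lang t N := by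
  simp [LF]

lemma card_LF (t : ℝ) (N : ℕ) : (D.LF t N).card = D.W t N := by
  rw [W, LF, Set.ncard_eq_toFinset_card _ (Lang_finite t N)]

lemma ext_congr {t : ℝ} {J K : ℕ} {u w : ℕ → ℤ} (h : ∀ i < K * J, u i = w i) :
    D.ext t J K u = D.ext t J K w := by
  classical
  unfold ext
  refine Finset.filter_congr fun k hk => ?_
  rw [Finset.mem_range] at hk
  have hle : (k + 1) * J ≤ K * J := Nat.mul_le_mul_right _ hk
  rw [not_iff_not]
  constructor
  · intro h'
    exact h'.congr fun i hi => (h i (by omega)).symm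
  · intro h'
    exact h'.congr fun i hi => h i (by omega)

lemma first_diff {u w : ℕ → ℤ} (h : u ≠ w) : ∃ n, (∀ i < n, u i = w i) ∧ u n ≠ w n := by
  classical
  have hex : ∃ n, u n ≠ w n := Function.ne_iff.1 h
  refine ⟨Nat.find hex, fun i hi => ?_, Nat.find_spec hex⟩
  by_contra hcon
  exact Nat.find_min hex hi hcon

lemma wsum (t : ℝ) (J : ℕ) (M : ℕ) (hM : D.W t J ≤ M) (K : ℕ) :
    ∑ u ∈ D.LF t (K * J), M ^ (D.ext t J K u).card ≤ (3 * M) ^ K := by
  classical
  induction K with
  | zero =>
    have : D.LF t (0 * J) ⊆ {fun _ => 0} := by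
      intro u hu
      rw [mem_LF] at hu
      rw [Finset.mem_singleton]
      funext n
      exact hu.2 n (by omega)
    calc ∑ u ∈ D.LF t (0 * J), M ^ (D.ext t J 0 u).card
        = ∑ u ∈ D.LF t (0 * J), 1 := by
          refine Finset.sum_congr rfl fun u _ => ?_
          simp [ext]
      _ ≤ ∑ u ∈ ({fun _ => 0} : Finset (ℕ → ℤ)), 1 :=
          Finset.sum_le_sum_of_subset this
      _ = (3 * M) ^ 0 := by simp
  | succ K ih =>
    have hmaps : ∀ u ∈ D.LF t ((K + 1) * J), tr (K * J) u ∈ D.LF t (K * J) := by
      intro u hu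
      rw [mem_LF] at hu ⊢
      exact tr_mem (hu.1.mono (Nat.mul_le_mul_right _ (Nat.le_succ K)))
    rw [← Finset.sum_fiberwise_of_maps_to hmaps, pow_succ]
    refine le_trans ?_ (Nat.mul_le_mul_right _ ih)
    rw [Finset.sum_mul]
    refine Finset.sum_le_sum fun y hy => ?_
    set Ch := (D.LF t ((K + 1) * J)).filter (fun u => tr (K * J) u = y) with hCh
    have hchmem : ∀ u ∈ Ch, D.Adm t ((K + 1) * J) u ∧ (∀ n, (K + 1) * J ≤ n → u n = 0) ∧
        ∀ i < K * J, u i = y i := by
      intro u hu
      rw [hCh, Finset.mem_filter, mem_LF] at hu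
      refine ⟨hu.1.1, hu.1.2, fun i hi => ?_⟩
      rw [← hu.2]; simp [tr, hi]
    -- number of children
    have hcard : Ch.card ≤ M := by
      refine le_trans ?_ hM
      rw [← card_LF]
      refine Finset.card_le_card_of_injOn (fun u => tr J (sh (K * J) u)) ?_ ?_
      · intro u hu
        obtain ⟨h1, h2, h3⟩ := hchmem u hu
        show _ ∈ (D.LF t J : Set (ℕ → ℤ))
        rw [Finset.mem_coe, mem_LF]
        have : (K + 1) * J = K * J + J := by ring
        rw [this] at h1
        exact tr_mem h1.shift
      · intro u hu w hw huw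
        obtain ⟨h1, h2, h3⟩ := hchmem u hu
        obtain ⟨h1', h2', h3'⟩ := hchmem w hw
        have e0 : (K + 1) * J = K * J + J := by ring
        funext n
        by_cases hn : n < K * J
        · rw [h3 n hn, h3' n hn]
        · by_cases hn2 : n < (K + 1) * J
          · have := congrFun huw (n - K * J)
            have e : K * J + (n - K * J) = n := by omega
            have e2 : n - K * J < J := by omega
            simpa [tr, sh, e, e2] using this
          · rw [h2 n (by omega), h2' n (by omega)]
    -- trichotomy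
    have key : ∀ u ∈ Ch, ∀ w ∈ Ch, u ≠ w → ∃ n, K * J ≤ n ∧ n < (K + 1) * J ∧
        (∀ i < n, u i = w i) ∧ u n ≠ w n := by
      intro u hu w hw huw
      obtain ⟨h1, h2, h3⟩ := hchmem u hu
      obtain ⟨h1', h2', h3'⟩ := hchmem w hw
      obtain ⟨n, hn1, hn2⟩ := first_diff huw
      refine ⟨n, ?_, ?_, hn1, hn2⟩
      · by_contra hcon
        exact hn2 (by rw [h3 n (by omega), h3' n (by omega)])
      · by_contra hcon
        exact hn2 (by rw [h2 n (by omega), h2' n (by omega)])
    have hext : (Ch.filter fun u => ¬ D.NonExt t J K u).card ≤ 2 := by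
      set P1 : (ℕ → ℤ) → Prop := fun u => ∃ (u' : ℕ → ℤ) (n : ℕ), D.Adm t ((K + 1) * J) u' ∧
        K * J ≤ n ∧ n < (K + 1) * J ∧ (∀ i < n, u' i = u i) ∧ u n < u' n with hP1
      set P2 : (ℕ → ℤ) → Prop := fun u => ∃ (u' : ℕ → ℤ) (n : ℕ), D.Adm t ((K + 1) * J) u' ∧
        K * J ≤ n ∧ n < (K + 1) * J ∧ (∀ i < n, u' i = u i) ∧ u' n < u n with hP2
      have hsub : (Ch.filter fun u => ¬ D.NonExt t J K u) ⊆
          (Ch.filter fun u => ¬ P1 u) ∪ (Ch.filter fun u => ¬ P2 u) := by
        intro u hu
        rw [Finset.mem_filter] at hu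
        simp only [Finset.mem_union, Finset.mem_filter]
        have : ¬ (P1 u ∧ P2 u) := hu.2
        tauto
      have c1 : (Ch.filter fun u => ¬ P1 u).card ≤ 1 := by
        rw [Finset.card_le_one]
        intro u hu w hw
        rw [Finset.mem_filter] at hu hw
        by_contra huw
        obtain ⟨n, n1, n2, n3, n4⟩ := key u hu.1 w hw.1 huw
        rcases lt_or_gt_of_ne n4 with hlt | hlt
        · exact hu.2 ⟨w, n, (hchmem w hw.1).1, n1, n2, fun i hi => (n3 i hi).symm, hlt⟩
        · exact hw.2 ⟨u, n, (hchmem u hu.1).1, n1, n2, n3, hlt⟩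
      have c2 : (Ch.filter fun u => ¬ P2 u).card ≤ 1 := by
        rw [Finset.card_le_one]
        intro u hu w hw
        rw [Finset.mem_filter] at hu hw
        by_contra huw
        obtain ⟨n, n1, n2, n3, n4⟩ := key u hu.1 w hw.1 huw
        rcases lt_or_gt_of_ne n4 with hlt | hlt
        · exact hw.2 ⟨u, n, (hchmem u hu.1).1, n1, n2, n3, hlt⟩
        · exact hu.2 ⟨w, n, (hchmem w hw.1).1, n1, n2, fun i hi => (n3 i hi).symm, hlt⟩
      have := (Finset.card_le_card hsub).trans (Finset.card_union_le _ _)
      omega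
    have hexteq : ∀ u ∈ Ch, (D.ext t J (K + 1) u).card =
        (D.ext t J K y).card + (if D.NonExt t J K u then 0 else 1) := by
      intro u hu
      obtain ⟨h1, h2, h3⟩ := hchmem u hu
      rw [← ext_congr (D := D) h3]
      unfold ext
      rw [Finset.range_add_one, Finset.filter_insert]
      by_cases hne : D.NonExt t J K u
      · simp [hne]
      · rw [if_pos hne, if_neg hne, Finset.card_insert_of_notMem]
        simp
    calc ∑ u ∈ Ch, M ^ (D.ext t J (K + 1) u).card
        = ∑ u ∈ Ch, M ^ ((D.ext t J K y).card + (if D.NonExt t J K u then 0 else 1)) :=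
          Finset.sum_congr rfl fun u hu => by rw [hexteq u hu]
      _ = ∑ u ∈ Ch with D.NonExt t J K u, M ^ (D.ext t J K y).card +
          ∑ u ∈ Ch with ¬ D.NonExt t J K u, M ^ ((D.ext t J K y).card + 1) := by
          rw [← Finset.sum_filter_add_sum_filter_not Ch (fun u => D.NonExt t J K u)]
          congr 1
          · refine Finset.sum_congr rfl fun u hu => ?_
            rw [Finset.mem_filter] at hu
            simp [hu.2]
          · refine Finset.sum_congr rfl fun u hu => ?_
            rw [Finset.mem_filter] at hu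
            simp [hu.2]
      _ ≤ M * M ^ (D.ext t J K y).card + 2 * M ^ ((D.ext t J K y).card + 1) := by
          rw [Finset.sum_const, Finset.sum_const, smul_eq_mul, smul_eq_mul]
          refine Nat.add_le_add (Nat.mul_le_mul_right _ ?_) (Nat.mul_le_mul_right _ hext)
          exact (Finset.card_filter_le _ _).trans hcard
      _ = M ^ (D.ext t J K y).card * (3 * M) := by ring

/-- few words have many extreme blocks -/
lemma count_bad (t : ℝ) (J : ℕ) (M : ℕ) (hM : D.W t J ≤ M) (hM1 : 1 ≤ M) (K m : ℕ) :
    ((D.LF t (K * J)).filter (fun u => m ≤ (D.ext t J K u).card)).card * M ^ m ≤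
      (3 * M) ^ K := by
  classical
  refine le_trans ?_ (wsum t J M hM K)
  rw [← smul_eq_mul, ← Finset.sum_const]
  refine le_trans (Finset.sum_le_sum fun u hu => ?_)
    (Finset.sum_le_sum_of_subset (Finset.filter_subset _ _))
  rw [Finset.mem_filter] at hu
  exact Nat.pow_le_pow_right hM1 hu.2

end HData

open Classical in
/-- Good indices: a counting lemma. -/
lemma good_count (q : ℕ) (X : Finset ℕ) (K : ℕ) :
    ∀ n a : ℕ, a + n = K →
      ((Finset.Ico a K).filter (fun i => ∃ j, i < j ∧ j ≤ K ∧
        j - i < (q + 1) * (X ∩ Finset.Ico i j).card)).card ≤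
        (q + 1) * (X ∩ Finset.Ico a K).card := by
  classical
  intro n
  induction n using Nat.strong_induction_on with
  | _ n ih =>
    intro a ha
    rcases Nat.eq_zero_or_pos n with rfl | hn
    · have : Finset.Ico a K = ∅ := by rw [Finset.Ico_eq_empty_iff]; omega
      simp [this]
    · by_cases hbad : ∃ j, a < j ∧ j ≤ K ∧ j - a < (q + 1) * (X ∩ Finset.Ico a j).card
      · obtain ⟨j, j1, j2, j3⟩ := hbad
        have h1 := ih (K - j) (by omega) j (by omega)
        have hsplit : Finset.Ico a K = Finset.Ico a j ∪ Finset.Ico j K :=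
          (Finset.Ico_union_Ico_eq_Ico j1.le j2).symm
        have hdisj : Disjoint (X ∩ Finset.Ico a j) (X ∩ Finset.Ico j K) :=
          (Finset.Ico_disjoint_Ico_consecutive a j K).mono Finset.inter_subset_right
            Finset.inter_subset_right
        have h2 : (X ∩ Finset.Ico a K).card =
            (X ∩ Finset.Ico a j).card + (X ∩ Finset.Ico j K).card := by
          rw [hsplit, Finset.inter_union_distrib_left, Finset.card_union_of_disjoint hdisj]
        rw [h2, mul_add]
        rw [hsplit, Finset.filter_union]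
        refine (Finset.card_union_le _ _).trans ?_
        refine Nat.add_le_add ?_ h1
        refine (Finset.card_filter_le _ _).trans ?_
        rw [Nat.card_Ico]
        omega
      · have h1 := ih (n - 1) (by omega) (a + 1) (by omega)
        have hsub : (Finset.Ico a K).filter (fun i => ∃ j, i < j ∧ j ≤ K ∧
            j - i < (q + 1) * (X ∩ Finset.Ico i j).card) ⊆
            (Finset.Ico (a + 1) K).filter (fun i => ∃ j, i < j ∧ j ≤ K ∧
            j - i < (q + 1) * (X ∩ Finset.Ico i j).card) := by
          intro i hi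
          rw [Finset.mem_filter, Finset.mem_Ico] at hi ⊢
          refine ⟨⟨?_, hi.1.2⟩, hi.2⟩
          rcases Nat.eq_or_lt_of_le hi.1.1 with h | h
          · exact absurd (h ▸ hi.2) hbad
          · exact h
        refine (Finset.card_le_card hsub).trans (h1.trans ?_)
        refine Nat.mul_le_mul_left _ (Finset.card_le_card ?_)
        refine Finset.inter_subset_inter_left ?_
        intro i hi
        rw [Finset.mem_Ico] at hi ⊢
        omega

end Pool.Agent.Helper46.AK
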