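import Mathlib

set_option autoImplicit false

namespace Pool.Agent.Helper46.AK

open Filter Topology

/-- Hyperbolic data with a one dimensional expanding direction. -/
structure HData (d : ℕ) where
  a : ℝ
  T : (Fin d → ℝ) →ₗ[ℝ] (Fin d → ℝ)
  e : Fin d → ℝ
  v : Fin d → ℝ
  φ : (Fin d → ℝ) →ₗ[ℝ] ℝ
  l : Fin d
  ρ : ℝ
  C : ℝ
  ha : 1 < a
  hρ0 : 0 < ρ
  hρ1 : ρ < 1
  hC : 1 ≤ C
  Tv : T v = a • v
  φT : ∀ z, φ (T z) = a * φ z
  φv : φ v = 1
  hv : ∀ i, 1 ≤ v i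
  hel : e l = 1
  stable : ∀ (n : ℕ) (z : Fin d → ℝ), ‖(T ^ n) (z - φ z • v)‖ ≤ C * ρ ^ n * ‖z‖

variable {d : ℕ}

namespace HData

variable (D : HData d)

lemma apos : 0 < D.a := lt_trans one_pos D.ha
lemma Cpos : 0 < D.C := lt_of_lt_of_le one_pos D.hC

include D in
lemma nonempty : Nonempty (Fin d) := ⟨D.l⟩

lemma one_le_norm_v : 1 ≤ ‖D.v‖ := by
  have h1 := norm_le_pi_norm D.v D.l
  have h2 := D.hv D.l
  have h3 : D.v D.l ≤ ‖D.v D.l‖ := Real.le_norm_self _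
  linarith

lemma phi_bound (z : Fin d → ℝ) : |D.φ z| * ‖D.v‖ ≤ (D.C + 1) * ‖z‖ := by
  have h := D.stable 0 z
  simp only [pow_zero, mul_one] at h
  have h2 : ‖D.φ z • D.v‖ ≤ ‖z‖ + ‖z - D.φ z • D.v‖ := by
    have : D.φ z • D.v = z - (z - D.φ z • D.v) := by abel
    calc ‖D.φ z • D.v‖ = ‖z - (z - D.φ z • D.v)‖ := by rw [← this]
      _ ≤ _ := norm_sub_le _ _
  rw [norm_smul, Real.norm_eq_abs] at h2
  have h3 : ‖z - D.φ z • D.v‖ ≤ D.C * ‖z‖ := by simpa using h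
  linarith

lemma phi_bound' (z : Fin d → ℝ) : |D.φ z| ≤ (D.C + 1) * ‖z‖ := by
  have h := D.phi_bound z
  have h1 := D.one_le_norm_v
  have h2 := abs_nonneg (D.φ z)
  nlinarith

lemma Tpow_v (n : ℕ) : (D.T ^ n) D.v = D.a ^ n • D.v := by
  induction n with
  | zero => simp
  | succ n ih =>
    rw [pow_succ', Module.End.mul_apply, ih, map_smul, D.Tv, smul_smul, pow_succ]

lemma phi_Tpow (n : ℕ) (z : Fin d → ℝ) : D.φ ((D.T ^ n) z) = D.a ^ n * D.φ z := by
  induction n with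
  | zero => simp
  | succ n ih =>
    rw [pow_succ', Module.End.mul_apply, D.φT, ih, pow_succ]; ring

/-- decomposition of the `n`-th iterate. -/
lemma Tpow_decomp (n : ℕ) (z : Fin d → ℝ) :
    (D.T ^ n) z = (D.φ z * D.a ^ n) • D.v + (D.T ^ n) (z - D.φ z • D.v) := by
  rw [map_sub, map_smul, D.Tpow_v, smul_smul]; abel

lemma Tpow_norm_le (n : ℕ) (z : Fin d → ℝ) :
    ‖(D.T ^ n) z‖ ≤ |D.φ z| * D.a ^ n * ‖D.v‖ + D.C * D.ρ ^ n * ‖z‖ := by
  rw [D.Tpow_decomp n z]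
  refine (norm_add_le _ _).trans ?_
  refine add_le_add ?_ (D.stable n z)
  rw [norm_smul, Real.norm_eq_abs, abs_mul, abs_of_pos (pow_pos D.apos n)]

lemma continuous_T : Continuous D.T := LinearMap.continuous_of_finiteDimensional _

/-- orbits on the time interval `[0,N]` of height at most `t`. -/
def Orb (u : ℕ → ℤ) (z : ℕ → (Fin d → ℝ)) (N : ℕ) (t : ℝ) : Prop :=
  (∀ n ≤ N, ‖z n‖ ≤ t) ∧ ∀ n < N, z (n + 1) = D.T (z n) + (u n : ℝ) • D.e

def Adm (t : ℝ) (N : ℕ) (u : ℕ → ℤ) : Prop := ∃ z, D.Orb u z N t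

def Lang (t : ℝ) (N : ℕ) : Set (ℕ → ℤ) := {u | D.Adm t N u ∧ ∀ n, N ≤ n → u n = 0}

/-- truncation -/
def tr (N : ℕ) (u : ℕ → ℤ) : ℕ → ℤ := fun n => if n < N then u n else 0
/-- shift -/
def sh (m : ℕ) (u : ℕ → ℤ) : ℕ → ℤ := fun n => u (m + n)

variable {D}

lemma Orb.mono {u z N t} (h : D.Orb u z N t) {M : ℕ} (hM : M ≤ N) : D.Orb u z M t :=
  ⟨fun n hn => h.1 n (hn.trans hM), fun n hn => h.2 n (hn.trans_le hM)⟩

lemma Orb.mono_t {u z N t} (h : D.Orb u z N t) {s : ℝ} (hs : t ≤ s) : D.Orb u z N s :=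
  ⟨fun n hn => (h.1 n hn).trans hs, h.2⟩

lemma Orb.congr {u z N t} (h : D.Orb u z N t) {u' : ℕ → ℤ} (hu : ∀ n < N, u' n = u n) :
    D.Orb u' z N t :=
  ⟨h.1, fun n hn => by rw [hu n hn]; exact h.2 n hn⟩

lemma Orb.shift {u z m N t} (h : D.Orb u z (m + N) t) :
    D.Orb (sh m u) (fun n => z (m + n)) N t :=
  ⟨fun n hn => h.1 _ (by omega), fun n hn => h.2 (m + n) (by omega)⟩

lemma Adm.mono {t N u} (h : D.Adm t N u) {M : ℕ} (hM : M ≤ N) : D.Adm t M u :=
  let ⟨z, hz⟩ := h; ⟨z, hz.mono hM⟩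

lemma Adm.mono_t {t N u} (h : D.Adm t N u) {s : ℝ} (hs : t ≤ s) : D.Adm s N u :=
  let ⟨z, hz⟩ := h; ⟨z, hz.mono_t hs⟩

lemma Adm.congr {t N u} (h : D.Adm t N u) {u' : ℕ → ℤ} (hu : ∀ n < N, u' n = u n) :
    D.Adm t N u' :=
  let ⟨z, hz⟩ := h; ⟨z, hz.congr hu⟩

lemma Adm.shift {t m N u} (h : D.Adm t (m + N) u) : D.Adm t N (sh m u) :=
  let ⟨_, hz⟩ := h; ⟨_, hz.shift⟩

lemma tr_mem {t N u} (h : D.Adm t N u) : tr N u ∈ D.Lang t N := by
  refine ⟨h.congr fun n hn => by simp [tr, hn], fun n hn => by simp [tr, not_lt.2 hn]⟩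

lemma Lang_mono_t {t s : ℝ} (hs : t ≤ s) (N : ℕ) : D.Lang t N ⊆ D.Lang s N :=
  fun _ hu => ⟨hu.1.mono_t hs, hu.2⟩

/-- two orbits with the same inputs differ by the free evolution. -/
lemma Orb.diff {u u' z z' N t t'} (h : D.Orb u z N t) (h' : D.Orb u' z' N t')
    {m : ℕ} (hm : m ≤ N) (huu : ∀ n < m, u' n = u n) :
    ∀ n ≤ m, z' n - z n = (D.T ^ n) (z' 0 - z 0) := by
  intro n
  induction n with
  | zero => intro _; simp
  | succ n ih =>
    intro hn
    rw [h.2 n (by omega), h'.2 n (by omega), huu n (by omega), pow_succ', Module.End.mul_apply,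
      ← ih (by omega), map_sub]
    abel

lemma norm_T_le (z : Fin d → ℝ) : ‖D.T z‖ ≤ ((D.C + 1) * D.a + D.C) * ‖z‖ := by
  have h := D.Tpow_norm_le 1 z
  simp only [pow_one] at h
  have h2 := D.phi_bound z
  have h3 : |D.φ z| * D.a * ‖D.v‖ ≤ (D.C + 1) * D.a * ‖z‖ := by
    have := mul_le_mul_of_nonneg_left h2 D.apos.le
    nlinarith
  have h4 : D.C * D.ρ * ‖z‖ ≤ D.C * ‖z‖ := by
    have := D.hρ1
    have h5 := D.Cpos
    have h6 := norm_nonneg z
    have : D.C * D.ρ ≤ D.C := by nlinarith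
    nlinarith
  nlinarith

lemma input_bound {t : ℝ} {x y : Fin d → ℝ} {k : ℤ} (hx : ‖x‖ ≤ t) (hy : ‖y‖ ≤ t)
    (h : y = D.T x + (k : ℝ) • D.e) : |(k : ℝ)| ≤ ((D.C + 1) * D.a + D.C + 1) * t := by
  have h1 : (k : ℝ) = y D.l - (D.T x) D.l := by
    rw [h]; simp [D.hel]
  have h2 : |y D.l| ≤ t := (norm_le_pi_norm y D.l).trans hy
  have h3 : |(D.T x) D.l| ≤ ((D.C + 1) * D.a + D.C) * t := by
    refine (norm_le_pi_norm (D.T x) D.l).trans ((norm_T_le x).trans ?_)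
    have := D.apos
    have := D.Cpos
    gcongr
  rw [h1]
  refine (abs_sub _ _).trans ?_
  linarith

lemma Lang_finite (t : ℝ) (N : ℕ) : (D.Lang t N).Finite := by
  classical
  set B : ℝ := ((D.C + 1) * D.a + D.C + 1) * t with hB
  set S : Finset (Fin N → ℤ) := Fintype.piFinset (fun _ => Finset.Icc (-⌈B⌉) ⌈B⌉) with hS
  let ext : (Fin N → ℤ) → (ℕ → ℤ) := fun f n => if h : n < N then f ⟨n, h⟩ else 0
  refine (S.finite_toSet.image ext).subset ?_
  rintro u ⟨⟨z, hz1, hz2⟩, hu0⟩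
  refine ⟨fun i => u i, ?_, ?_⟩
  · rw [Finset.mem_coe, hS, Fintype.mem_piFinset]
    intro i
    have hb := D.input_bound (hz1 i (by omega)) (hz1 (i + 1) (by omega)) (hz2 i i.2)
    rw [Finset.mem_Icc]
    have hle : (u i : ℝ) ≤ (⌈B⌉ : ℝ) := (le_abs_self _).trans (hb.trans (Int.le_ceil B))
    have hge : -(⌈B⌉ : ℝ) ≤ (u i : ℝ) := by
      have := (neg_le_abs (u i : ℝ)).trans (hb.trans (Int.le_ceil B))
      linarith
    constructor
    · exact_mod_cast hge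
    · exact_mod_cast hle
  · funext n
    by_cases hn : n < N
    · simp [ext, hn]
    · simp [ext, hn, hu0 n (not_lt.1 hn)]

variable (D) in
/-- number of words -/
noncomputable def W (t : ℝ) (N : ℕ) : ℕ := (D.Lang t N).ncard

lemma zero_mem {t : ℝ} (ht : 0 ≤ t) (N : ℕ) : (fun _ => (0 : ℤ)) ∈ D.Lang t N :=
  ⟨⟨fun _ => 0, fun n _ => by simpa using ht, fun n _ => by simp⟩, fun _ _ => rfl⟩

lemma W_pos {t : ℝ} (ht : 0 ≤ t) (N : ℕ) : 0 < D.W t N :=
  (Set.ncard_pos (Lang_finite t N)).2 ⟨_, zero_mem ht N⟩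

lemma W_add_le (t : ℝ) (m n : ℕ) : D.W t (m + n) ≤ D.W t m * D.W t n := by
  unfold W
  rw [← Set.ncard_prod]
  refine Set.ncard_le_ncard_of_injOn (fun u => (tr m u, tr n (sh m u))) ?_ ?_
    ((Lang_finite t m).prod (Lang_finite t n))
  · rintro u ⟨hu, -⟩
    exact ⟨tr_mem (hu.mono (by omega)), tr_mem hu.shift⟩
  · rintro u ⟨hu, hu0⟩ u' ⟨hu', hu0'⟩ h
    simp only [Prod.mk.injEq] at h
    funext k
    by_cases hk : k < m
    · have := congrFun h.1 k
      simpa [tr, hk] using this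
    · by_cases hk2 : k < m + n
      · have := congrFun h.2 (k - m)
        have e : m + (k - m) = k := by omega
        have h3 : k - m < n := by omega
        simpa [tr, sh, h3, e] using this
      · rw [hu0 k (by omega), hu0' k (by omega)]

lemma subadd {t : ℝ} (ht : 0 ≤ t) : Subadditive fun N => Real.log (D.W t N) := by
  intro m n
  have h1 : (D.W t (m + n) : ℝ) ≤ D.W t m * D.W t n := by exact_mod_cast W_add_le t m n
  have h2 : (0 : ℝ) < D.W t (m + n) := by exact_mod_cast W_pos ht (m + n)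
  have h3 : (0 : ℝ) < D.W t m := by exact_mod_cast W_pos ht m
  have h4 : (0 : ℝ) < D.W t n := by exact_mod_cast W_pos ht n
  calc Real.log (D.W t (m + n)) ≤ Real.log (D.W t m * D.W t n) := Real.log_le_log h2 h1
    _ = _ := Real.log_mul h3.ne' h4.ne'

lemma bddBelow {t : ℝ} (ht : 0 ≤ t) :
    BddBelow (Set.range fun N : ℕ => Real.log (D.W t N) / N) := by
  refine ⟨0, ?_⟩
  rintro _ ⟨N, rfl⟩
  have h : (1 : ℝ) ≤ D.W t N := by exact_mod_cast W_pos ht N
  exact div_nonneg (Real.log_nonneg h) (Nat.cast_nonneg _)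

/-- growth rate -/
noncomputable def h {t : ℝ} (ht : 0 ≤ t) : ℝ := (subadd (D := D) ht).lim

lemma h_tendsto {t : ℝ} (ht : 0 ≤ t) :
    Tendsto (fun N : ℕ => Real.log (D.W t N) / N) atTop (𝓝 (h (D := D) ht)) :=
  (subadd ht).tendsto_lim (bddBelow ht)

lemma h_mul_le {t : ℝ} (ht : 0 ≤ t) (N : ℕ) : h (D := D) ht * N ≤ Real.log (D.W t N) := by
  rcases Nat.eq_zero_or_pos N with rfl | hN
  · have h : (1 : ℝ) ≤ D.W t 0 := by exact_mod_cast W_pos ht 0
    simpa using Real.log_nonneg h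
  · have := (subadd (D := D) ht).lim_le_div (bddBelow ht) hN.ne'
    have hN' : (0 : ℝ) < N := by exact_mod_cast hN
    rw [le_div_iff₀ hN'] at this
    exact this

lemma h_nonneg {t : ℝ} (ht : 0 ≤ t) : 0 ≤ h (D := D) ht := by
  refine ge_of_tendsto' (h_tendsto ht) fun N => ?_
  have h : (1 : ℝ) ≤ D.W t N := by exact_mod_cast W_pos ht N
  exact div_nonneg (Real.log_nonneg h) (Nat.cast_nonneg _)

/-- iterating along an orbit from its first state, as a function of the first state. -/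
def flow (D : HData d) (u : ℕ → ℤ) (x : Fin d → ℝ) : ℕ → (Fin d → ℝ)
  | 0 => x
  | n + 1 => D.T (flow D u x n) + (u n : ℝ) • D.e

lemma flow_continuous (u : ℕ → ℤ) (n : ℕ) : Continuous fun x => flow D u x n := by
  induction n with
  | zero => exact continuous_id
  | succ n ih => exact (D.continuous_T.comp ih).add continuous_const

lemma Orb.eq_flow {u z N t} (h : D.Orb u z N t) : ∀ n ≤ N, z n = flow D u (z 0) n := by
  intro n
  induction n with
  | zero => intro _; rfl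
  | succ n ih => intro hn; rw [h.2 n (by omega), ih (by omega)]; rfl

lemma Adm_of_forall_gt {t : ℝ} {N : ℕ} {u : ℕ → ℤ} (h : ∀ s > t, D.Adm s N u) :
    D.Adm t N u := by
  have : ProperSpace (Fin d → ℝ) := inferInstance
  let f : (Fin d → ℝ) → (Fin (N + 1) → (Fin d → ℝ)) := fun x i => flow D u x i
  have hf : Continuous f := continuous_pi fun i => flow_continuous u i
  have hne : (Metric.closedBall (0 : Fin d → ℝ) (t + 1)).Nonempty := by
    obtain ⟨z, hz⟩ := h (t + 1) (by linarith)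
    exact ⟨z 0, by simpa using hz.1 0 (Nat.zero_le _)⟩
  obtain ⟨x, hx, hmin⟩ := (isCompact_closedBall (0 : Fin d → ℝ) (t + 1)).exists_isMinOn hne
    (hf.norm.continuousOn)
  have key : ‖f x‖ ≤ t := by
    refine le_of_forall_pos_le_add fun ε hε => ?_
    obtain ⟨z, hz⟩ := h (t + min ε 1) (by have : 0 < min ε 1 := lt_min hε one_pos; linarith)
    have hz0 : z 0 ∈ Metric.closedBall (0 : Fin d → ℝ) (t + 1) := by
      have := hz.1 0 (Nat.zero_le _)
      have h2 : min ε 1 ≤ 1 := min_le_right _ _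
      simp only [mem_closedBall_zero_iff]
      linarith
    have h1 : ‖f x‖ ≤ ‖f (z 0)‖ := hmin hz0
    have h2 : ‖f (z 0)‖ ≤ t + min ε 1 := by
      have : Nonempty (Fin (N + 1)) := ⟨0⟩
      rw [pi_norm_le_iff_of_nonempty]
      intro i
      have := hz.1 i (by omega)
      rw [hz.eq_flow i (by omega)] at this
      exact this
    have h3 : min ε 1 ≤ ε := min_le_left _ _
    linarith
  refine ⟨fun n => flow D u x n, fun n hn => ?_, fun n _ => rfl⟩
  have := norm_le_pi_norm (f x) ⟨n, by omega⟩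
  exact this.trans key

lemma Lang_right {t : ℝ} (N : ℕ) : ∀ᶠ s in 𝓝[>] t, D.Lang s N ⊆ D.Lang t N := by
  have h1 : ∀ u ∈ D.Lang (t + 1) N, ∀ᶠ s in 𝓝[>] t, (u ∈ D.Lang s N → u ∈ D.Lang t N) := by
    intro u hu
    by_cases h : u ∈ D.Lang t N
    · exact Eventually.of_forall fun _ _ => h
    · have : ∃ s > t, ¬ D.Adm s N u := by
        by_contra hcon
        push Not at hcon
        exact h ⟨Adm_of_forall_gt hcon, hu.2⟩
      obtain ⟨s, hs, hsu⟩ := this
      filter_upwards [Ioo_mem_nhdsGT hs] with r hr hru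
      exact absurd (hru.1.mono_t hr.2.le) hsu
  have h2 := (Filter.eventually_all_finite (Lang_finite (D := D) (t + 1) N)).2 h1
  filter_upwards [h2, Ioo_mem_nhdsGT (show t < t + 1 by linarith)] with s hs hs1 u hu
  exact hs u (Lang_mono_t hs1.2.le N hu) hu

end HData

end Pool.Agent.Helper46.AK
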