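import Pool.Agent.Helper46.AK.Link

set_option autoImplicit false

namespace Pool.Agent.Helper46.AK

open Filter Topology Polynomial

/-- greedy integer sequence with free bits -/
noncomputable def sq (α : ℝ) (b : ℕ → ℤ) : ℕ → ℤ
  | 0 => 0
  | n + 1 => ⌈α * (sq α b n : ℝ) - 1⌉ + b n

lemma sq_step (α : ℝ) {b : ℕ → ℤ} (hb : ∀ n, b n = 0 ∨ b n = 1) (n : ℕ) :
    |(sq α b (n + 1) : ℝ) - α * sq α b n| ≤ 1 := by
  have h0 : (0 : ℝ) ≤ b n ∧ (b n : ℝ) ≤ 1 := by
    rcases hb n with h | h <;> rw [h] <;> norm_num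
  have h1 := Int.le_ceil (α * (sq α b n : ℝ) - 1)
  have h2 := Int.ceil_lt_add_one (α * (sq α b n : ℝ) - 1)
  have e : (sq α b (n + 1) : ℝ) = (⌈α * (sq α b n : ℝ) - 1⌉ : ℝ) + b n := by
    simp [sq]
  rw [e, abs_le]
  constructor <;> linarith [h0.1, h0.2]

lemma sq_close {α t : ℝ} (hα : 1 < α) (ht : α * t = t + 1) {s : ℕ → ℤ}
    (hs : ∀ n, |(s (n + 1) : ℝ) - α * s n| ≤ 1) (K : ℕ) :
    ∀ k ≤ K, |(s K : ℝ) / α ^ k - s (K - k)| ≤ t := by
  have hα0 : 0 < α := by linarith
  have ht0 : 0 ≤ t := by nlinarith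
  intro k
  induction k with
  | zero => intro _; simpa using ht0
  | succ k ih =>
    intro hk
    have h1 := ih (by omega)
    have h2 := hs (K - (k + 1))
    have e : K - (k + 1) + 1 = K - k := by omega
    rw [e] at h2
    have h3 : (s K : ℝ) / α ^ (k + 1) - s (K - (k + 1)) =
        (((s K : ℝ) / α ^ k - s (K - k)) + ((s (K - k) : ℝ) - α * s (K - (k + 1)))) / α := by
      rw [pow_succ]
      field_simp
      ring
    rw [h3, abs_div, abs_of_pos hα0, div_le_iff₀ hα0]
    refine (abs_add_le _ _).trans ?_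
    linarith

variable {m : ℕ} {P : ℝ[X]} {D : HData (m + 1)} {p : ℤ[X]} {α : ℝ}

lemma growth (hT : D.T = cT m P) (he : D.e = Pi.single (Fin.last m) 1)
    (hP : P = p.map (Int.castRingHom ℝ)) (hPM : P.Monic)
    (hPm : P.natDegree = m + 1) (hroot : P.eval α = 0) (hα : 1 < α) {t : ℝ}
    (ht : α * t = t + 1) (N : ℕ) : 2 ^ N ≤ D.W t N := by
  classical
  set bb : ℕ → ℕ → ℤ := fun k n => if m ≤ n ∧ Nat.testBit k (n - m) = true then 1 else 0 with hbb
  have hb01 : ∀ k n, bb k n = 0 ∨ bb k n = 1 := by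
    intro k n
    simp only [hbb]
    split_ifs
    · right; rfl
    · left; rfl
  set s : ℕ → ℕ → ℤ := fun k => sq α (bb k) with hs
  set uu : ℕ → ℕ → ℤ := fun k n =>
    -(s k (n + m + 1) + ∑ j : Fin (m + 1), p.coeff j * s k (n + j)) with huu
  rw [← HData.card_LF]
  have hmem : ∀ k, HData.tr N (uu k) ∈ D.LF t N := by
    intro k
    rw [HData.mem_LF]
    apply HData.tr_mem
    have hstep := fun n => sq_step α (hb01 k) n
    set K := N + m with hK
    set ξ : ℝ := (s k K : ℝ) / α ^ K with hξ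
    have hα0 : (0 : ℝ) < α := by linarith
    have hbd : ∀ n ≤ K, |ξ * α ^ n - s k n| ≤ t := by
      intro n hn
      have h1 := sq_close hα ht hstep K (K - n) (by omega)
      have e1 : K - (K - n) = n := by omega
      rw [e1] at h1
      have e2 : ξ * α ^ n = (s k K : ℝ) / α ^ (K - n) := by
        rw [hξ]
        have : α ^ K = α ^ (K - n) * α ^ n := by rw [← pow_add]; congr 1; omega
        rw [this]
        field_simp
      rw [e2]; exact h1
    refine ⟨fun n i => ξ * α ^ (n + (i : ℕ)) - s k (n + i), fun n hn => ?_, fun n _ => ?_⟩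
    · rw [pi_norm_le_iff_of_nonempty]
      intro i
      exact hbd _ (by omega)
    · rw [hT, he]
      exact state_rec (fun n => ξ * α ^ n - s k n) n _
        (eps_rec hP hPM hPm hroot ξ (s k) n)
  have hinj : Set.InjOn (fun k => HData.tr N (uu k)) (Finset.range (2 ^ N) : Set ℕ) := by
    intro k hk k' hk' hkk
    rw [Finset.mem_coe, Finset.mem_range] at hk hk'
    have hu : ∀ n < N, uu k n = uu k' n := by
      intro n hn
      have := congrFun hkk n
      simpa [HData.tr, hn] using this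
    have hseq : ∀ n, n ≤ N + m → s k n = s k' n := by
      intro n
      induction n using Nat.strong_induction_on with
      | _ n ih =>
        intro hn
        rcases Nat.lt_or_ge m n with hmn | hmn
        · obtain ⟨r, rfl⟩ : ∃ r, n = r + m + 1 := ⟨n - m - 1, by omega⟩
          have h1 := hu r (by omega)
          simp only [huu] at h1
          have h2 : ∑ j : Fin (m + 1), p.coeff j * s k (r + j) =
              ∑ j : Fin (m + 1), p.coeff j * s k' (r + j) := by
            refine Finset.sum_congr rfl fun j _ => ?_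
            rw [ih (r + j) (by omega) (by omega)]
          rw [h2] at h1
          linarith
        · rcases n with _ | n
          · rfl
          · have h1 := ih n (by omega) (by omega)
            have e0 : bb k n = 0 ∧ bb k' n = 0 := by
              simp only [hbb]
              constructor
              · rw [if_neg]; rintro ⟨h, -⟩; omega
              · rw [if_neg]; rintro ⟨h, -⟩; omega
            show sq α (bb k) (n + 1) = sq α (bb k') (n + 1)
            simp only [sq]
            rw [e0.1, e0.2]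
            have h1' : sq α (bb k) n = sq α (bb k') n := h1
            rw [h1']
    have hbits : ∀ i < N, Nat.testBit k i = Nat.testBit k' i := by
      intro i hi
      have h1 : sq α (bb k) (m + i + 1) = sq α (bb k') (m + i + 1) := hseq (m + i + 1) (by omega)
      have h2 : sq α (bb k) (m + i) = sq α (bb k') (m + i) := hseq (m + i) (by omega)
      simp only [sq] at h1
      rw [h2] at h1
      have h3 : bb k (m + i) = bb k' (m + i) := by linarith
      simp only [hbb, Nat.add_sub_cancel_left, Nat.le_add_right, true_and] at h3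
      cases hb : Nat.testBit k i <;> cases hb' : Nat.testBit k' i
      · rfl
      · rw [hb, hb'] at h3; simp at h3
      · rw [hb, hb'] at h3; simp at h3
      · rfl
    apply Nat.eq_of_testBit_eq
    intro i
    rcases Nat.lt_or_ge i N with hi | hi
    · exact hbits i hi
    · have h2 : 2 ^ N ≤ 2 ^ i := Nat.pow_le_pow_right (by norm_num) hi
      rw [Nat.testBit_lt_two_pow (by omega), Nat.testBit_lt_two_pow (by omega)]
  have := Finset.card_le_card_of_injOn (fun k => HData.tr N (uu k)) (s := Finset.range (2 ^ N))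
    (t := D.LF t N) (fun k _ => hmem k) hinj
  rwa [Finset.card_range] at this

theorem main {α : ℝ} (h : IsPisot α) (h3 : 3 < α) :
    ∃ t₀ : ℝ, IsLeast {t | AccPt t (𝓟 (spectrum α))} t₀ ∧
      ∃ a b : ℝ, a < b ∧ Set.Ioo a b ⊆ Set.Icc t₀ (1 / 2) \ spectrum α := by
  obtain ⟨p, Q, hp, hpQ, hQ, hQα, hroots⟩ := pisot_alg h
  set P := p.map (Int.castRingHom ℝ) with hP
  have hPM : P.Monic := hp.map _
  set m := Q.natDegree with hm
  have hPm : P.natDegree = m + 1 := by
    rw [hpQ, (monic_X_sub_C α).natDegree_mul hQ, natDegree_X_sub_C]; ring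
  have hroot : P.eval α = 0 := by rw [hpQ, eval_mul]; simp
  obtain ⟨D, hDa, hDT, hDe, hDv⟩ := exists_data h.2.1 hPM hpQ hQ rfl hQα hroots
  have hα1 : 0 < α - 1 := by linarith
  have hA : ∃ (t : ℝ) (ht : 0 ≤ t), t < 1 / 2 ∧ 0 < HData.h (D := D) ht := by
    have ht0 : (0 : ℝ) ≤ 1 / (α - 1) := by positivity
    refine ⟨1 / (α - 1), ht0, ?_, ?_⟩
    · rw [div_lt_div_iff₀ hα1 (by norm_num)]; linarith
    · have hgr := growth hDT hDe hP hPM hPm hroot h.2.1 (t := 1 / (α - 1))
        (by field_simp; ring)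
      have hlog2 : 0 < Real.log 2 := Real.log_pos (by norm_num)
      refine lt_of_lt_of_le hlog2 ?_
      refine ge_of_tendsto (HData.h_tendsto (D := D) ht0) ?_
      filter_upwards [eventually_ge_atTop 1] with N hN
      have hNR : (0 : ℝ) < N := by exact_mod_cast hN
      rw [le_div_iff₀ hNR]
      have h3 : (N : ℝ) * Real.log 2 ≤ Real.log (D.W (1 / (α - 1)) N) := by
        rw [← Real.log_pow]
        apply Real.log_le_log (by positivity)
        exact_mod_cast hgr N
      linarith
  obtain ⟨s, hs0, hs12, hacc, a, b, hsa, hab, hb12, hgap⟩ := HData.dyn_main hA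
  set 𝒜 := {t | AccPt t (𝓟 (spectrum α))} with h𝒜
  have hs𝒜 : s ∈ 𝒜 := by
    show AccPt s (𝓟 (spectrum α))
    rw [accPt_iff_nhds]
    intro U hU
    obtain ⟨ε, hε, hball⟩ := Metric.mem_nhds_iff.1 hU
    obtain ⟨l, hl, hl1, hl2⟩ := hacc (min ε (1 / 2 - s)) (lt_min hε (by linarith))
    have hl3 : l < s + ε := hl2.trans_le (by linarith [min_le_left ε (1 / 2 - s)])
    have hl4 : l < 1 / 2 := hl2.trans_le (by linarith [min_le_right ε (1 / 2 - s)])
    refine ⟨l, ⟨hball ?_, SS_sub_spectrum hDa hDT hDe hDv hP hl hl4⟩, hl1.ne'⟩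
    rw [Metric.mem_ball, Real.dist_eq, abs_lt]
    constructor <;> linarith
  have hclosed : IsClosed 𝒜 := isClosed_derivedSet (spectrum α)
  have hbdd : BddBelow 𝒜 := by
    refine ⟨0, fun t ht => ?_⟩
    by_contra hcon
    have hcon : t < 0 := not_le.1 hcon
    obtain ⟨l, ⟨hl1, hl2⟩, -⟩ := (accPt_iff_nhds.1 ht) (Set.Iio 0) (Iio_mem_nhds hcon)
    obtain ⟨ξ, hξ⟩ := spectrum_isLS hl2
    have := hξ.ge_of_ge fun n => abs_nonneg _
    exact absurd hl1 (not_lt.2 this)
  have hleast : IsLeast 𝒜 (sInf 𝒜) := hclosed.isLeast_csInf ⟨s, hs𝒜⟩ hbdd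
  refine ⟨sInf 𝒜, hleast, a, b, hab, fun y hy => ⟨⟨?_, ?_⟩, fun hyS => ?_⟩⟩
  · have := csInf_le hbdd hs𝒜
    linarith [hy.1]
  · linarith [hy.2]
  · exact hgap y (spectrum_sub_SS hDT hDe hP hPM hPm hroot hyS) ⟨hy.1, hy.2⟩

end Pool.Agent.Helper46.AK
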