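import Pool.Agent.Helper46.AK.Chain

set_option autoImplicit false

namespace Pool.Agent.Helper46.AK

open Filter Topology MeasureTheory

variable {d : ℕ}

namespace HData

variable {D : HData d}

lemma W_mul_le {t : ℝ} (n k : ℕ) : D.W t (k * n) ≤ (D.W t n) ^ k := by
  induction k with
  | zero =>
    rw [zero_mul, pow_zero, ← card_LF]
    apply Finset.card_le_one.2
    intro u hu w hw
    rw [mem_LF] at hu hw
    funext n
    rw [hu.2 n (Nat.zero_le _), hw.2 n (Nat.zero_le _)]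
  | succ k ih =>
    have e : (k + 1) * n = k * n + n := by ring
    rw [e, pow_succ]
    exact (W_add_le t _ _).trans (Nat.mul_le_mul_right _ ih)

lemma cover_aux {s : ℝ} (hs : s < 1 / 2) {M : ℕ} {u : ℕ → ℤ} {z z' : ℕ → (Fin d → ℝ)}
    (h : D.Orb u z (2 * M) s) (h' : D.Orb u z' (2 * M) s) :
    ‖z' M - z M‖ ≤ (D.C + 1) * (D.ρ ^ M + 1 / D.a ^ M) := by
  have h1 := h.diff h' (m := 2 * M) le_rfl (fun n _ => rfl)
  have hM := h1 M (by omega)
  have h2M := h1 (2 * M) le_rfl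
  have hapos := D.apos
  have hC := D.Cpos
  have hρ0 := D.hρ0
  set w := z' 0 - z 0 with hw
  have hw1 : ‖w‖ ≤ 1 := diff_norm_le hs h h'
  have hw2 : ‖z' (2 * M) - z (2 * M)‖ ≤ 1 := by
    have a1 := h.1 (2 * M) le_rfl
    have a2 := h'.1 (2 * M) le_rfl
    have := norm_sub_le (z' (2 * M)) (z (2 * M))
    linarith
  have h3 : |D.φ w| * D.a ^ (2 * M) * ‖D.v‖ ≤ D.C + 1 := by
    have a1 := D.phi_bound (z' (2 * M) - z (2 * M))
    rw [h2M, D.phi_Tpow, abs_mul, abs_of_pos (pow_pos hapos _)] at a1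
    rw [h2M] at hw2
    have : (D.C + 1) * ‖(D.T ^ (2 * M)) w‖ ≤ D.C + 1 := by nlinarith
    linarith
  rw [hM]
  refine (D.Tpow_norm_le M w).trans ?_
  have haM : 0 < D.a ^ M := pow_pos hapos M
  have h4 : |D.φ w| * D.a ^ M * ‖D.v‖ ≤ (D.C + 1) * (1 / D.a ^ M) := by
    rw [mul_one_div, le_div_iff₀ haM]
    have : D.a ^ (2 * M) = D.a ^ M * D.a ^ M := by rw [← pow_add]; congr 1; omega
    rw [this] at h3
    linarith
  have h5 : D.C * D.ρ ^ M * ‖w‖ ≤ (D.C + 1) * D.ρ ^ M := by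
    have : 0 < D.ρ ^ M := pow_pos hρ0 M
    nlinarith [mul_pos hC this, norm_nonneg w]
  linarith

lemma cover {s : ℝ} (hs : s < 1 / 2) (M : ℕ) : ∃ c : (ℕ → ℤ) → ℝ, ∀ l ∈ D.SS, l < s →
    ∃ w ∈ D.LF s (2 * M), |l - c w| ≤ 2 * ((D.C + 1) * (D.ρ ^ M + 1 / D.a ^ M)) := by
  classical
  set E := (D.C + 1) * (D.ρ ^ M + 1 / D.a ^ M) with hE
  have hE0 : 0 < E := by
    have := D.apos
    have := D.Cpos
    have := D.hρ0
    positivity
  have hz : ∀ w : ℕ → ℤ, w ∈ D.LF s (2 * M) → ∃ z, D.Orb w z (2 * M) s := by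
    intro w hw
    rw [mem_LF] at hw
    exact hw.1
  choose! zz hzz using hz
  refine ⟨fun w => ‖zz w M‖, ?_⟩
  rintro l ⟨u, z, hz1, hz2⟩ hls
  obtain ⟨N0, hN0⟩ := eventually_atTop.1 (hz2.1 s hls)
  obtain ⟨n, hn1, hn2, hn3⟩ := ((hz2.2 (l - E) (by linarith)).and_eventually
    ((hz2.1 (l + E) (by linarith)).and (eventually_ge_atTop (N0 + M)))).exists
  have horb : D.Orb (sh (n - M) u) (fun k => z ((n - M) + k)) (2 * M) s :=
    ⟨fun k _ => hN0 _ (by omega), fun k _ => hz1 _⟩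
  set w := tr (2 * M) (sh (n - M) u) with hw
  have hwmem : w ∈ D.LF s (2 * M) := by
    rw [mem_LF]
    exact tr_mem ⟨_, horb⟩
  refine ⟨w, hwmem, ?_⟩
  have horb' : D.Orb w (fun k => z ((n - M) + k)) (2 * M) s :=
    horb.congr fun k hk => by simp [hw, tr, hk]
  have h1 := cover_aux hs (hzz w hwmem) horb'
  have e : n - M + M = n := by omega
  simp only [e] at h1
  have h2 := abs_norm_sub_norm_le (z n) (zz w M)
  have h3 := abs_le.1 (h2.trans h1)
  rw [abs_le]
  constructor <;> linarith [h3.1, h3.2]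

theorem dyn_main (hA : ∃ (t : ℝ) (ht : 0 ≤ t), t < 1 / 2 ∧ 0 < h (D := D) ht) :
    ∃ s : ℝ, 0 ≤ s ∧ s < 1 / 2 ∧ (∀ ε > 0, ∃ l ∈ D.SS, s < l ∧ l < s + ε) ∧
      ∃ a b : ℝ, s ≤ a ∧ a < b ∧ b < 1 / 2 ∧ ∀ l ∈ D.SS, ¬ (a < l ∧ l < b) := by
  classical
  set A : Set ℝ := {t | ∃ (ht : 0 ≤ t), t < 1 / 2 ∧ 0 < h (D := D) ht} with hAdef
  have hAne : A.Nonempty := hA
  have hAbd : BddBelow A := ⟨0, fun t ht => ht.1⟩
  set s := sInf A with hs
  have hs0 : 0 ≤ s := le_csInf hAne fun t ht => ht.1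
  have hs12 : s < 1 / 2 := by
    obtain ⟨t, ht⟩ := hAne
    exact (csInf_le hAbd ht).trans_lt ht.2.1
  have hsA : s ∉ A := by
    rintro ⟨h1, h2, h3⟩
    obtain ⟨l, hl, hlt, hlp, -⟩ := chain h1 h2 h3
    have : s ≤ l := csInf_le hAbd ⟨hl, hlt.trans h2, hlp⟩
    linarith
  have hh0 : h (D := D) hs0 = 0 := by
    by_contra hcon
    exact hsA ⟨hs0, hs12, lt_of_le_of_ne (h_nonneg hs0) (Ne.symm hcon)⟩
  refine ⟨s, hs0, hs12, fun ε hε => ?_, ?_⟩
  · obtain ⟨t, htA, hts⟩ := exists_lt_of_csInf_lt hAne (show sInf A < s + ε by linarith)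
    obtain ⟨h1, h2, h3⟩ := htA
    obtain ⟨l, hl, hlt, hlp, hlS⟩ := chain h1 h2 h3
    have hlA : l ∈ A := ⟨hl, hlt.trans h2, hlp⟩
    have h4 : s ≤ l := csInf_le hAbd hlA
    have h5 : s ≠ l := fun e => hsA (e ▸ hlA)
    exact ⟨l, hlS, lt_of_le_of_ne h4 h5, hlt.trans hts⟩
  · -- the gap
    have hapos := D.apos
    have hC := D.Cpos
    have hρ0 := D.hρ0
    set η := max D.ρ (1 / D.a) with hη
    have hη0 : 0 < η := lt_max_of_lt_left hρ0
    have hη1 : η < 1 := max_lt D.hρ1 (by rw [div_lt_one hapos]; exact D.ha)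
    set σ := - Real.log η / 4 with hσ
    have hσ0 : 0 < σ := by
      have := Real.log_neg hη0 hη1
      rw [hσ]; linarith
    have hev1 : ∀ᶠ N : ℕ in atTop, Real.log (D.W s N) / N < σ := by
      have := h_tendsto (D := D) hs0
      rw [hh0] at this
      exact this.eventually (gt_mem_nhds hσ0)
    obtain ⟨M0, hM01, hM02⟩ := (hev1.and (eventually_ge_atTop 1)).exists
    have hM0R : (0 : ℝ) < M0 := by exact_mod_cast hM02
    rw [div_lt_iff₀ hM0R] at hM01
    obtain ⟨s1, hs11, hs12', hs13⟩ := ((Lang_right (D := D) (t := s) M0).and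
      (Ioo_mem_nhdsGT hs12)).exists
    have hs1pos : 0 ≤ s1 := hs0.trans hs12'.le
    have hW1 : D.W s1 M0 ≤ D.W s M0 := Set.ncard_le_ncard hs11 (Lang_finite s M0)
    have hWposR : ∀ N, (0 : ℝ) < D.W s1 N := fun N => by exact_mod_cast W_pos hs1pos N
    have hWexp : ∀ j : ℕ, (D.W s1 (2 * (j * M0)) : ℝ) ≤ Real.exp (2 * σ * (j * M0)) := by
      intro j
      have e1 : 2 * (j * M0) = (2 * j) * M0 := by ring
      have h1 : (D.W s1 (2 * (j * M0)) : ℝ) ≤ (D.W s1 M0 : ℝ) ^ (2 * j) := by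
        rw [e1]; exact_mod_cast W_mul_le M0 (2 * j)
      refine h1.trans ?_
      rw [← Real.log_le_iff_le_exp (by have := hWposR M0; positivity), Real.log_pow]
      have h2 : Real.log (D.W s1 M0) ≤ σ * M0 := by
        refine le_trans ?_ hM01.le
        apply Real.log_le_log (hWposR M0)
        exact_mod_cast hW1
      push_cast
      have : (0 : ℝ) ≤ 2 * j := by positivity
      nlinarith
    -- choose j
    have hlim : Tendsto (fun j : ℕ => 8 * (D.C + 1) * (Real.exp (- (2 * σ) * M0)) ^ j) atTop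
        (𝓝 (8 * (D.C + 1) * 0)) := by
      apply Tendsto.const_mul
      apply tendsto_pow_atTop_nhds_zero_of_lt_one (Real.exp_pos _).le
      rw [Real.exp_lt_one_iff]
      nlinarith
    rw [mul_zero] at hlim
    obtain ⟨j, hj⟩ := (hlim.eventually (gt_mem_nhds (show 0 < s1 - s by linarith))).exists
    set M := j * M0 with hM
    have hηM : ∀ x : ℝ, 0 ≤ x → x ≤ η → x ^ M ≤ Real.exp (- (4 * σ) * M) := by
      intro x hx0 hx1
      have h1 : x ^ M ≤ η ^ M := by gcongr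
      refine h1.trans (le_of_eq ?_)
      rw [hσ, show -(4 * (-Real.log η / 4)) * (M : ℝ) = M * Real.log η by ring, Real.exp_nat_mul,
        Real.exp_log hη0]
    have hE : D.ρ ^ M + 1 / D.a ^ M ≤ 2 * Real.exp (- (4 * σ) * M) := by
      have h1 := hηM D.ρ hρ0.le (le_max_left _ _)
      have h2 := hηM (1 / D.a) (by positivity) (le_max_right _ _)
      rw [div_pow, one_pow] at h2
      linarith
    obtain ⟨c, hc⟩ := cover (D := D) hs13 M
    set E := (D.C + 1) * (D.ρ ^ M + 1 / D.a ^ M) with hEdef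
    have hE0 : 0 < E := by positivity
    have hsmall : (D.W s1 (2 * M) : ℝ) * (4 * E) < s1 - s := by
      refine lt_of_le_of_lt ?_ hj
      have h1 : 4 * E ≤ 8 * (D.C + 1) * Real.exp (- (4 * σ) * M) := by
        rw [hEdef]
        nlinarith
      have h2 := hWexp j
      rw [← hM] at h2
      have h3 : (D.W s1 (2 * M) : ℝ) * (4 * E) ≤
          Real.exp (2 * σ * M) * (8 * (D.C + 1) * Real.exp (- (4 * σ) * M)) := by
        have e0 : ((j : ℝ) * M0) = (M : ℝ) := by rw [hM]; push_cast; ring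
        rw [e0] at h2
        gcongr
      refine h3.trans (le_of_eq ?_)
      rw [← Real.exp_nat_mul]
      have : Real.exp (2 * σ * M) * (8 * (D.C + 1) * Real.exp (- (4 * σ) * M)) =
          8 * (D.C + 1) * (Real.exp (2 * σ * M) * Real.exp (- (4 * σ) * M)) := by ring
      rw [this, ← Real.exp_add]
      congr 2
      rw [hM]; push_cast; ring
    set U : Set ℝ := ⋃ w ∈ D.LF s1 (2 * M), Metric.closedBall (c w) (2 * E) with hU
    have hUclosed : IsClosed U := by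
      rw [hU]
      exact (D.LF s1 (2 * M)).finite_toSet.isClosed_biUnion fun w _ => Metric.isClosed_closedBall
    have hne : (Set.Ioo s s1 \ U).Nonempty := by
      by_contra hcon
      rw [Set.not_nonempty_iff_eq_empty, Set.sdiff_eq_empty] at hcon
      have h1 : volume (Set.Ioo s s1) ≤ volume U := measure_mono hcon
      have h2 : volume U ≤ ∑ w ∈ D.LF s1 (2 * M), volume (Metric.closedBall (c w) (2 * E)) :=
        measure_biUnion_finset_le _ _
      simp only [Real.volume_closedBall, Finset.sum_const, card_LF, nsmul_eq_mul] at h2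
      rw [Real.volume_Ioo] at h1
      have h3 := h1.trans h2
      have h4 : ((D.W s1 (2 * M) : ℕ) : ENNReal) * ENNReal.ofReal (2 * (2 * E)) =
          ENNReal.ofReal ((D.W s1 (2 * M) : ℝ) * (2 * (2 * E))) := by
        rw [ENNReal.ofReal_mul (p := (D.W s1 (2 * M) : ℝ)) (by positivity), ENNReal.ofReal_natCast]
      rw [h4, ENNReal.ofReal_le_ofReal_iff (by positivity)] at h3
      linarith
    obtain ⟨x, hx⟩ := hne
    have hopen : IsOpen (Set.Ioo s s1 \ U) := isOpen_Ioo.sdiff hUclosed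
    obtain ⟨r, hr0, hr⟩ := Metric.isOpen_iff.1 hopen x hx
    rw [Real.ball_eq_Ioo] at hr
    have hsub1 : Set.Ioo (x - r) (x + r) ⊆ Set.Ioo s s1 := fun y hy => (hr hy).1
    have hsub2 := (Set.Ioo_subset_Ioo_iff (show x - r < x + r by linarith)).1 hsub1
    refine ⟨x - r, x + r, hsub2.1, by linarith, lt_of_le_of_lt hsub2.2 hs13, ?_⟩
    rintro l hl ⟨hl1, hl2⟩
    have hmem := hr ⟨hl1, hl2⟩
    obtain ⟨w, hw1, hw2⟩ := hc l hl (hl2.trans_le hsub2.2)
    apply hmem.2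
    rw [hU, Set.mem_iUnion₂]
    refine ⟨w, hw1, ?_⟩
    rw [Metric.mem_closedBall, Real.dist_eq]
    exact hw2

end HData

end Pool.Agent.Helper46.AK
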