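import Pool.Agent.Helper46.AK.Count

set_option autoImplicit false

namespace Pool.Agent.Helper46.AK

open Filter Topology

variable {d : ℕ}

/-- good boundaries -/
def Good (q K : ℕ) (X : Finset ℕ) (i : ℕ) : Prop :=
  ∀ j, i < j → j ≤ K → (q + 1) * (X ∩ Finset.Ico i j).card ≤ j - i

open Classical in
lemma goodset_card (q K : ℕ) (X : Finset ℕ) (hX : 2 * ((q + 1) * X.card) ≤ K) :
    K ≤ 2 * ((Finset.range K).filter (fun i => Good q K X i)).card := by
  have h1 := good_count q X K K 0 (by omega)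
  have h2 : (X ∩ Finset.Ico 0 K).card ≤ X.card := Finset.card_le_card Finset.inter_subset_left
  have h3 := Finset.card_filter_add_card_filter_not (s := Finset.range K)
    (fun i => Good q K X i)
  rw [Finset.card_range] at h3
  have h4 : (Finset.range K).filter (fun i => ¬ Good q K X i) =
      (Finset.Ico 0 K).filter (fun i => ∃ j, i < j ∧ j ≤ K ∧
        j - i < (q + 1) * (X ∩ Finset.Ico i j).card) := by
    rw [Finset.range_eq_Ico]
    refine Finset.filter_congr fun i _ => ?_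
    unfold Good
    push Not
    rfl
  rw [h4] at h3
  have h5 : (q + 1) * (X ∩ Finset.Ico 0 K).card ≤ (q + 1) * X.card := Nat.mul_le_mul_left _ h2
  omega

namespace HData

variable {D : HData d}

variable (D) in
noncomputable def kap (t : ℝ) (J : ℕ) : ℝ := D.c0 t / D.a ^ (2 * J) * D.ρ ^ J

lemma kap_pos {t : ℝ} (ht : t < 1 / 2) (J : ℕ) : 0 < D.kap t J := by
  unfold kap
  have := D.c0_pos ht
  have := D.apos
  have := D.hρ0
  positivity

lemma margins {t : ℝ} (ht : t < 1 / 2) {u : ℕ → ℤ} {z : ℕ → (Fin d → ℝ)} {J K q : ℕ}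
    (hJ : 0 < J) (h : D.Orb u z (K * J) t) (hq : D.ρ ^ q ≤ 1 / D.a) (hq0 : 0 < q) {i1 i2 : ℕ}
    (_h12 : i1 < i2) (hi2 : i2 < K) (g1 : Good q K (D.ext t J K u) i1)
    (g2 : Good q K (D.ext t J K u) i2)
    (hk : D.C * D.ρ ^ (i1 * J) ≤ D.kap t J / 2) (hk' : D.C * D.ρ ^ (i1 * J) ≤ (1 - 2 * t) / 2) :
    ∀ j, i1 * J ≤ j → j ≤ i2 * J → ‖z j‖ ≤ t - D.kap t J / 2 * D.ρ ^ (j - i1 * J) ∧
      ‖z j‖ ≤ t - D.kap t J / 2 / D.a ^ (i2 * J - j) := by
  classical
  intro j hj1 hj2
  set k' := (j + J - 1) / J with hk'def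
  have hk1 : j ≤ k' * J := by
    have h1 := Nat.div_add_mod (j + J - 1) J
    have h2 := Nat.mod_lt (j + J - 1) hJ
    rw [← hk'def, mul_comm] at h1
    omega
  have hk2 : k' * J < j + J := by
    have h1 := Nat.div_mul_le_self (j + J - 1) J
    rw [← hk'def] at h1
    omega
  have hk3 : i1 ≤ k' := by
    by_contra hcon
    have : (k' + 1) * J ≤ i1 * J := Nat.mul_le_mul_right _ (by omega)
    have e : (k' + 1) * J = k' * J + J := by ring
    omega
  have hk4 : k' ≤ i2 := by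
    by_contra hcon
    have : (i2 + 1) * J ≤ k' * J := Nat.mul_le_mul_right _ (by omega)
    have e : (i2 + 1) * J = i2 * J + J := by ring
    omega
  have hne2 : D.NonExt t J i2 u := by
    by_contra hcon
    have h1 := g2 (i2 + 1) (Nat.lt_succ_self _) hi2
    have h2 : i2 ∈ (D.ext t J K u) ∩ Finset.Ico i2 (i2 + 1) := by
      rw [Finset.mem_inter, Finset.mem_Ico]
      refine ⟨?_, le_rfl, Nat.lt_succ_self _⟩
      unfold ext
      rw [Finset.mem_filter, Finset.mem_range]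
      exact ⟨hi2, hcon⟩
    have h3 : 0 < ((D.ext t J K u) ∩ Finset.Ico i2 (i2 + 1)).card := Finset.card_pos.2 ⟨_, h2⟩
    have h4 : (q + 1) * 1 ≤ (q + 1) * ((D.ext t J K u) ∩ Finset.Ico i2 (i2 + 1)).card :=
      Nat.mul_le_mul_left _ h3
    omega
  have hex : ∃ k, k' ≤ k ∧ D.NonExt t J k u := ⟨i2, hk4, hne2⟩
  obtain ⟨k, ⟨hkk, hkn⟩, hmin⟩ : ∃ k, (k' ≤ k ∧ D.NonExt t J k u) ∧
      ∀ m < k, ¬ (k' ≤ m ∧ D.NonExt t J m u) :=
    ⟨Nat.find hex, Nat.find_spec hex, fun m hm => Nat.find_min hex hm⟩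
  have hki2 : k ≤ i2 := by
    by_contra hcon
    exact hmin i2 (by omega) ⟨hk4, hne2⟩
  have hcard : k - k' ≤ ((D.ext t J K u) ∩ Finset.Ico i1 k).card := by
    have : Finset.Ico k' k ⊆ (D.ext t J K u) ∩ Finset.Ico i1 k := by
      intro m hm
      rw [Finset.mem_Ico] at hm
      rw [Finset.mem_inter, Finset.mem_Ico]
      refine ⟨?_, hk3.trans hm.1, hm.2⟩
      unfold ext
      rw [Finset.mem_filter, Finset.mem_range]
      exact ⟨by omega, fun hcon => hmin m hm.2 ⟨hm.1, hcon⟩⟩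
    have := Finset.card_le_card this
    rwa [Nat.card_Ico] at this
  have hqk : q * (k - k') ≤ k' - i1 := by
    rcases Nat.lt_or_ge i1 k with hlt | hge
    · have h1 := g1 k hlt (by omega)
      have h2 : (q + 1) * (k - k') ≤ k - i1 := (Nat.mul_le_mul_left _ hcard).trans h1
      have h3 : (q + 1) * (k - k') = q * (k - k') + (k - k') := by ring
      omega
    · have : k - k' = 0 := by omega
      rw [this]; omega
  have hkN : (k + 1) * J ≤ K * J := Nat.mul_le_mul_right _ (by omega)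
  have hapos := D.apos
  have hρ0 := D.hρ0
  have hρ1 := D.hρ1
  have hC := D.Cpos
  have hc0 := D.c0_pos ht
  have hkk2 : D.C * D.ρ ^ (k * J) ≤ (1 - 2 * t) / 2 := by
    refine le_trans ?_ hk'
    have : D.ρ ^ (k * J) ≤ D.ρ ^ (i1 * J) :=
      pow_le_pow_of_le_one hρ0.le hρ1.le (Nat.mul_le_mul_right _ (by omega))
    gcongr
  have hm := margin ht h hkN hkn hkk2 j (hk1.trans (Nat.mul_le_mul_right _ hkk))
  set A := D.c0 t * D.a ^ j / D.a ^ ((k + 1) * J) with hA
  -- A ≥ kap ρ^(j-n1)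
  have hA1 : D.kap t J * D.ρ ^ (j - i1 * J) ≤ A := by
    have e1 : D.a ^ ((k + 1) * J) ≤ D.a ^ j * D.a ^ (2 * J) * D.a ^ ((k - k') * J) := by
      rw [← pow_add, ← pow_add]
      refine pow_le_pow_right₀ D.ha.le ?_
      have : (k + 1) * J = (k - k') * J + k' * J + J := by
        have : k = (k - k') + k' := by omega
        nth_rewrite 1 [this]
        ring
      omega
    have e2 : D.ρ ^ (J + (j - i1 * J)) ≤ 1 / D.a ^ ((k - k') * J) := by
      have s1 : D.ρ ^ (J + (j - i1 * J)) ≤ D.ρ ^ (q * ((k - k') * J)) := by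
        refine pow_le_pow_of_le_one hρ0.le hρ1.le ?_
        have s2 : q * ((k - k') * J) = q * (k - k') * J := by ring
        have s3 : q * (k - k') * J ≤ (k' - i1) * J := Nat.mul_le_mul_right _ hqk
        have s4 : (k' - i1) * J = k' * J - i1 * J := Nat.sub_mul _ _ _
        omega
      refine s1.trans ?_
      rw [pow_mul]
      calc (D.ρ ^ q) ^ ((k - k') * J) ≤ (1 / D.a) ^ ((k - k') * J) := by
            gcongr
        _ = 1 / D.a ^ ((k - k') * J) := by rw [div_pow, one_pow]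
    have e3 : D.kap t J * D.ρ ^ (j - i1 * J) =
        D.c0 t / D.a ^ (2 * J) * D.ρ ^ (J + (j - i1 * J)) := by
      unfold kap; rw [pow_add]; ring
    rw [e3]
    calc D.c0 t / D.a ^ (2 * J) * D.ρ ^ (J + (j - i1 * J))
        ≤ D.c0 t / D.a ^ (2 * J) * (1 / D.a ^ ((k - k') * J)) := by gcongr
      _ = D.c0 t * D.a ^ j / (D.a ^ j * D.a ^ (2 * J) * D.a ^ ((k - k') * J)) := by
          field_simp
      _ ≤ A := by
          rw [hA]
          gcongr
  have hA2 : D.kap t J / D.a ^ (i2 * J - j) ≤ A := by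
    have e1 : D.a ^ ((k + 1) * J) ≤ D.a ^ j * D.a ^ (2 * J) * D.a ^ (i2 * J - j) := by
      rw [← pow_add, ← pow_add]
      refine pow_le_pow_right₀ D.ha.le ?_
      have h1 : (k + 1) * J = k * J + J := by ring
      have h2 : k * J ≤ i2 * J := Nat.mul_le_mul_right _ hki2
      omega
    have e2 : D.kap t J ≤ D.c0 t / D.a ^ (2 * J) := by
      unfold kap
      have : D.ρ ^ J ≤ 1 := pow_le_one₀ hρ0.le hρ1.le
      have h3 : 0 < D.c0 t / D.a ^ (2 * J) := by positivity
      nlinarith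
    calc D.kap t J / D.a ^ (i2 * J - j) ≤ D.c0 t / D.a ^ (2 * J) / D.a ^ (i2 * J - j) := by
          gcongr
      _ = D.c0 t * D.a ^ j / (D.a ^ j * D.a ^ (2 * J) * D.a ^ (i2 * J - j)) := by
          field_simp
      _ ≤ A := by
          rw [hA]
          gcongr
  have hA3 : D.C * D.ρ ^ j ≤ D.kap t J / 2 * D.ρ ^ (j - i1 * J) := by
    have : D.ρ ^ j = D.ρ ^ (i1 * J) * D.ρ ^ (j - i1 * J) := by
      rw [← pow_add]; congr 1; omega
    rw [this, ← mul_assoc]
    gcongr
  have hx1 : D.kap t J / 2 * D.ρ ^ (j - i1 * J) = (D.kap t J * D.ρ ^ (j - i1 * J)) / 2 := by ring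
  have hx2 : D.kap t J / 2 / D.a ^ (i2 * J - j) = (D.kap t J / D.a ^ (i2 * J - j)) / 2 := by ring
  rw [hx1] at hA3
  rw [hx1, hx2]
  constructor
  · linarith
  · linarith

end HData

end Pool.Agent.Helper46.AK
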