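import Pool.Agent.Helper46.AK.Alg
import Pool.Agent.Helper46.AK.Gap

set_option autoImplicit false

namespace Pool.Agent.Helper46.AK

open Filter Topology Polynomial

/-- A Pisot number. -/
def IsPisot (α : ℝ) : Prop :=
  IsIntegral ℤ α ∧ 1 < α ∧ ∀ z : ℂ, z ≠ (α : ℂ) → aeval z (minpoly ℤ α) = 0 → ‖z‖ < 1

/-- the spectrum -/
def spectrum (α : ℝ) : Set ℝ :=
  {t | ∃ ξ : ℝ, t = limsup (fun n : ℕ => |ξ * α ^ n - round (ξ * α ^ n)|) atTop}

lemma pisot_alg {α : ℝ} (h : IsPisot α) : ∃ (p : ℤ[X]) (Q : ℝ[X]), p.Monic ∧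
    p.map (Int.castRingHom ℝ) = (X - Polynomial.C α) * Q ∧ Q.Monic ∧ Q.eval α ≠ 0 ∧
    ∀ β ∈ (Q.map (algebraMap ℝ ℂ)).roots, ‖β‖ < 1 := by
  obtain ⟨hint, h1, hconj⟩ := h
  set p := minpoly ℤ α with hpdef
  have hp : p.Monic := minpoly.monic hint
  have hroot : (p.map (Int.castRingHom ℝ)).IsRoot α := by
    rw [IsRoot, eval_map, ← algebraMap_int_eq, ← aeval_def]
    exact minpoly.aeval ℤ α
  set Q := (p.map (Int.castRingHom ℝ)) /ₘ (X - Polynomial.C α) with hQdef
  have hPQ : (X - Polynomial.C α) * Q = p.map (Int.castRingHom ℝ) :=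
    mul_divByMonic_eq_iff_isRoot.2 hroot
  have hQ : Q.Monic := (monic_X_sub_C α).of_mul_monic_left (hPQ ▸ hp.map _)
  have hintQ : IsIntegral ℚ α := hint.tower_top
  have hsepQ : (minpoly ℚ α).Separable := (minpoly.irreducible hintQ).separable
  have hmapQ : (minpoly ℚ α).map (algebraMap ℚ ℝ) = p.map (Int.castRingHom ℝ) := by
    rw [minpoly.isIntegrallyClosed_eq_field_fractions' ℚ hint, Polynomial.map_map]
    rfl
  have hsep : (p.map (Int.castRingHom ℝ)).Separable := hmapQ ▸ hsepQ.map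
  have hd : (derivative (p.map (Int.castRingHom ℝ))).eval α = Q.eval α := by
    rw [← hPQ]; simp
  have hQα : Q.eval α ≠ 0 := by
    rw [← hd]
    obtain ⟨a, b, hab⟩ := hsep
    intro h0
    have := congrArg (Polynomial.eval α) hab
    rw [eval_add, eval_mul, eval_mul, h0, hroot.eq_zero] at this
    simp at this
  refine ⟨p, Q, hp, hPQ.symm, hQ, hQα, fun β hβ => ?_⟩
  have hβ0 : (Q.map (algebraMap ℝ ℂ)).eval β = 0 := (mem_roots'.1 hβ).2
  apply hconj β
  · rintro rfl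
    have h2 : (Q.map (algebraMap ℝ ℂ)).eval ((α : ℝ) : ℂ) = ((Q.eval α : ℝ) : ℂ) := by
      have := eval_map_algebraMap Q ((α : ℝ) : ℂ)
      rw [this]
      exact (aeval_algebraMap_apply ℂ α Q).trans (by simp)
    rw [h2] at hβ0
    exact hQα (by exact_mod_cast hβ0)
  · have h3 : ((p.map (Int.castRingHom ℝ)).map (algebraMap ℝ ℂ)).eval β = 0 := by
      rw [← hPQ, Polynomial.map_mul, eval_mul, hβ0, mul_zero]
    have h4 : (algebraMap ℝ ℂ).comp (Int.castRingHom ℝ) = algebraMap ℤ ℂ := RingHom.ext_int _ _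
    rw [Polynomial.map_map, h4] at h3
    rw [aeval_def, ← eval_map]
    exact h3

lemma exists_data {α : ℝ} (h1 : 1 < α) {P Q : ℝ[X]} {m : ℕ} (hP : P.Monic)
    (hPQ : P = (X - Polynomial.C α) * Q) (hQ : Q.Monic) (hQm : Q.natDegree = m)
    (hα : Q.eval α ≠ 0) (hr : ∀ β ∈ (Q.map (algebraMap ℝ ℂ)).roots, ‖β‖ < 1) :
    ∃ D : HData (m + 1), D.a = α ∧ D.T = cT m P ∧ D.e = Pi.single (Fin.last m) 1 ∧
      D.v = cv m α := by
  have hPm : P.natDegree = m + 1 := by
    rw [hPQ, (monic_X_sub_C α).natDegree_mul hQ, natDegree_X_sub_C, hQm]; ring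
  have hroot : P.eval α = 0 := by rw [hPQ, eval_mul]; simp
  obtain ⟨ρ, C, a1, a2, a3, a4⟩ := stable_exists hPQ hQ hQm hα hr
  exact ⟨{ a := α, T := cT m P, e := Pi.single (Fin.last m) 1, v := cv m α, φ := cφ m Q α,
           l := Fin.last m, ρ := ρ, C := C, ha := h1, hρ0 := a1, hρ1 := a2, hC := a3,
           Tv := cT_cv hP hPm hroot, φT := cφ_cT hPQ hQ hQm, φv := cφ_cv hQm hα,
           hv := fun i => one_le_pow₀ h1.le, hel := by simp, stable := a4 }, rfl, rfl, rfl, rfl⟩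

variable {m : ℕ} {P : ℝ[X]}

lemma state_rec (x : ℕ → ℝ) (n : ℕ) (u : ℝ)
    (h : x (n + m + 1) = - ∑ j : Fin (m + 1), P.coeff j * x (n + j) + u) :
    (fun i : Fin (m + 1) => x (n + 1 + i)) =
      cT m P (fun i => x (n + i)) + u • (Pi.single (Fin.last m) (1 : ℝ) : Fin (m + 1) → ℝ) := by
  funext i
  refine Fin.lastCases ?_ (fun i => ?_) i
  · rw [Pi.add_apply, cT_last, Pi.smul_apply, Pi.single_eq_same, smul_eq_mul, mul_one, ← h]
    simp only [Fin.val_last]
    congr 1; ring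
  · rw [Pi.add_apply, cT_castSucc, Pi.smul_apply, Pi.single_eq_of_ne (Fin.castSucc_lt_last i).ne,
      smul_zero, add_zero]
    simp only [Fin.val_castSucc, Fin.val_succ]
    congr 1; ring

lemma orbit_coord {u : ℕ → ℤ} {z : ℕ → (Fin (m + 1) → ℝ)}
    (h : ∀ n, z (n + 1) = cT m P (z n) +
      (u n : ℝ) • (Pi.single (Fin.last m) (1 : ℝ) : Fin (m + 1) → ℝ)) (n : ℕ)
    (i : Fin (m + 1)) : z n i = z (n + i) 0 := by
  refine Fin.induction (motive := fun i => ∀ n, z n i = z (n + i) 0) (fun n => rfl)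
    (fun i ih n => ?_) i n
  have h1 := ih (n + 1)
  rw [h n, Pi.add_apply, cT_castSucc, Pi.smul_apply,
    Pi.single_eq_of_ne (Fin.castSucc_lt_last i).ne, smul_zero, add_zero] at h1
  have e : n + 1 + ((i.castSucc : Fin (m + 1)) : ℕ) = n + ((i.succ : Fin (m + 1)) : ℕ) := by
    simp only [Fin.val_castSucc, Fin.val_succ]; ring
  rw [h1, e]

lemma ev_iff (m : ℕ) (x : ℕ → ℝ) (s : ℝ) : (∀ᶠ n in atTop, |x n| ≤ s) ↔
    (∀ᶠ n in atTop, ‖(fun i : Fin (m + 1) => x (n + i))‖ ≤ s) := by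
  constructor
  · intro h
    obtain ⟨N, hN⟩ := eventually_atTop.1 h
    filter_upwards [eventually_ge_atTop N] with n hn
    rw [pi_norm_le_iff_of_nonempty]
    intro i
    exact hN _ (by omega)
  · intro h
    filter_upwards [h] with n hn
    have := norm_le_pi_norm (fun i : Fin (m + 1) => x (n + i)) 0
    simp only [Fin.val_zero, add_zero] at this
    exact this.trans hn

lemma isLS_norm (m : ℕ) (x : ℕ → ℝ) (l : ℝ) : IsLS l (fun n => |x n|) ↔
    IsLS l (fun n => ‖(fun i : Fin (m + 1) => x (n + i))‖) := by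
  unfold IsLS
  refine and_congr ?_ ?_
  · exact forall₂_congr fun s _ => ev_iff m x s
  · refine forall₂_congr fun s _ => ?_
    have := not_congr (ev_iff m x s)
    simp only [Filter.not_eventually, not_le] at this
    exact this

lemma IsLS.congr' {l : ℝ} {x y : ℕ → ℝ} (h : IsLS l x)
    (hxy : Tendsto (fun n => y n - x n) atTop (𝓝 0)) : IsLS l y := by
  constructor
  · intro s hs
    obtain ⟨s', h1, h2⟩ := exists_between hs
    have h3 : ∀ᶠ n in atTop, y n - x n < s - s' := hxy.eventually (gt_mem_nhds (by linarith))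
    filter_upwards [h.1 s' h1, h3] with n h4 h5
    linarith
  · intro s hs
    obtain ⟨s', h1, h2⟩ := exists_between hs
    have h3 : ∀ᶠ n in atTop, s - s' < y n - x n := hxy.eventually (lt_mem_nhds (by linarith))
    refine ((h.2 s' h2).and_eventually h3).mono fun n hn => ?_
    linarith [hn.1, hn.2]

lemma spectrum_isLS {α t : ℝ} (h : t ∈ spectrum α) :
    ∃ ξ : ℝ, IsLS t (fun n : ℕ => |ξ * α ^ n - round (ξ * α ^ n)|) := by
  obtain ⟨ξ, rfl⟩ := h
  exact ⟨ξ, isLS_limsup (fun _ => abs_nonneg _) (fun _ => abs_sub_round _)⟩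

lemma isLS_spectrum {α t ξ : ℝ} (h : IsLS t (fun n : ℕ => |ξ * α ^ n - round (ξ * α ^ n)|)) :
    t ∈ spectrum α :=
  ⟨ξ, h.unique (isLS_limsup (fun _ => abs_nonneg _) (fun _ => abs_sub_round _))⟩

/-- integer polynomial relation for `ξ α ^ n - s n`. -/
lemma eps_rec {p : ℤ[X]} (hP : P = p.map (Int.castRingHom ℝ)) (hPM : P.Monic)
    (hPm : P.natDegree = m + 1) {α : ℝ} (hroot : P.eval α = 0) (ξ : ℝ) (s : ℕ → ℤ) (n : ℕ) :
    (ξ * α ^ (n + m + 1) - s (n + m + 1)) =
      - ∑ j : Fin (m + 1), P.coeff j * (ξ * α ^ (n + (j : ℕ)) - s (n + j)) +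
      (((-(s (n + m + 1) + ∑ j : Fin (m + 1), p.coeff j * s (n + j))) : ℤ) : ℝ) := by
  have h1 : P.eval α = ∑ j : Fin (m + 1), P.coeff j * α ^ (j : ℕ) + α ^ (m + 1) := by
    rw [eval_eq_sum_range, hPm, Finset.sum_range_succ, Finset.sum_range]
    have : P.coeff (m + 1) = 1 := by rw [← hPm]; exact hPM
    rw [this, one_mul]
  rw [hroot] at h1
  have h2 : ∑ j : Fin (m + 1), P.coeff j * (ξ * α ^ (n + (j : ℕ)) - s (n + j)) =
      ξ * α ^ n * ∑ j : Fin (m + 1), P.coeff j * α ^ (j : ℕ) -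
      ∑ j : Fin (m + 1), P.coeff j * (s (n + j) : ℝ) := by
    rw [Finset.mul_sum, ← Finset.sum_sub_distrib]
    refine Finset.sum_congr rfl fun j _ => ?_
    rw [pow_add]; ring
  have h3 : ∀ j : Fin (m + 1), (P.coeff j) = (p.coeff j : ℝ) := by
    intro j; rw [hP, coeff_map]; simp
  rw [h2]
  push_cast
  simp only [h3] at h1 ⊢
  have h4 : ∑ j : Fin (m + 1), (p.coeff j : ℝ) * α ^ (j : ℕ) = - α ^ (m + 1) := by linarith
  rw [h4, show n + m + 1 = n + (m + 1) by ring, pow_add]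
  ring

/-- integer orbit -/
noncomputable def intOrb (m : ℕ) (p : ℤ[X]) (u : ℕ → ℤ) : ℕ → (Fin (m + 1) → ℤ)
  | 0 => 0
  | n + 1 => Fin.snoc (α := fun _ => ℤ) (fun i : Fin m => intOrb m p u n i.succ)
      (- ∑ j : Fin (m + 1), p.coeff j * intOrb m p u n j + u n)

section Main

variable {D : HData (m + 1)} {p : ℤ[X]} {α : ℝ}

lemma spectrum_sub_SS (hT : D.T = cT m P) (he : D.e = Pi.single (Fin.last m) 1)
    (hP : P = p.map (Int.castRingHom ℝ)) (hPM : P.Monic)
    (hPm : P.natDegree = m + 1) (hroot : P.eval α = 0) : spectrum α ⊆ D.SS := by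
  intro l hl
  obtain ⟨ξ, hξ⟩ := spectrum_isLS hl
  set s : ℕ → ℤ := fun n => round (ξ * α ^ n) with hs
  set x : ℕ → ℝ := fun n => ξ * α ^ n - s n with hx
  refine ⟨fun n => -(s (n + m + 1) + ∑ j : Fin (m + 1), p.coeff j * s (n + j)),
    fun n i => x (n + i), fun n => ?_, (isLS_norm m x l).1 hξ⟩
  rw [hT, he]
  exact state_rec x n _ (eps_rec hP hPM hPm hroot ξ s n)

lemma SS_sub_spectrum (ha : D.a = α) (hT : D.T = cT m P)
    (he : D.e = Pi.single (Fin.last m) 1) (hv : D.v = cv m α)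
    (hP : P = p.map (Int.castRingHom ℝ)) {l : ℝ} (hl : l ∈ D.SS) (hl2 : l < 1 / 2) :
    l ∈ spectrum α := by
  obtain ⟨u, z, hz, hls⟩ := hl
  -- integer orbit
  set J : ℕ → (Fin (m + 1) → ℤ) := intOrb m p u with hJdef
  have hJ0 : J 0 = 0 := rfl
  have hJs : ∀ n, J (n + 1) = Fin.snoc (α := fun _ => ℤ) (fun i : Fin m => J n i.succ)
    (- ∑ j : Fin (m + 1), p.coeff j * J n j + u n) := fun n => rfl
  set J' : ℕ → (Fin (m + 1) → ℝ) := fun n i => ((J n i : ℤ) : ℝ) with hJ'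
  have hJ'rec : ∀ n, J' (n + 1) = D.T (J' n) + (u n : ℝ) • D.e := by
    intro n
    rw [hT, he]
    funext i
    refine Fin.lastCases ?_ (fun i => ?_) i
    · rw [Pi.add_apply, cT_last, Pi.smul_apply, Pi.single_eq_same, smul_eq_mul, mul_one]
      simp only [hJ', hJs, Fin.snoc_last]
      push_cast
      congr 2
      refine Finset.sum_congr rfl fun j _ => ?_
      rw [hP, coeff_map]; simp
    · rw [Pi.add_apply, cT_castSucc, Pi.smul_apply,
        Pi.single_eq_of_ne (Fin.castSucc_lt_last i).ne, smul_zero, add_zero]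
      simp only [hJ', hJs, Fin.snoc_castSucc]
  have hdiff : ∀ n, z n - J' n = (D.T ^ n) (z 0) := by
    intro n
    induction n with
    | zero =>
      have : J' 0 = 0 := by funext i; simp [hJ', hJ0]
      rw [this]; simp
    | succ n ih =>
      rw [hz, hJ'rec, pow_succ', Module.End.mul_apply, ← ih, map_sub]
      abel
  set ξ := D.φ (z 0) with hξ
  set r : ℕ → ℝ := fun n => - ((D.T ^ n) (z 0 - D.φ (z 0) • D.v)) 0 with hr
  have hrn : ∀ n, ξ * α ^ n = z n 0 + r n - J n 0 := by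
    intro n
    have h1 := congrFun (hdiff n) 0
    rw [D.Tpow_decomp n (z 0)] at h1
    simp only [Pi.sub_apply, Pi.add_apply, Pi.smul_apply, smul_eq_mul] at h1
    have hv0 : D.v 0 = 1 := by rw [hv]; simp [cv]
    rw [hv0, ha] at h1
    simp only [hr, hJ'] at h1 ⊢
    linarith
  have hr0 : Tendsto r atTop (𝓝 0) := by
    have hb : ∀ n, |r n| ≤ D.C * D.ρ ^ n * ‖z 0‖ := by
      intro n
      simp only [hr]
      rw [abs_neg]
      exact (norm_le_pi_norm _ 0).trans (D.stable n (z 0))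
    have hlim : Tendsto (fun n : ℕ => D.C * D.ρ ^ n * ‖z 0‖) atTop (𝓝 0) := by
      have := ((tendsto_pow_atTop_nhds_zero_of_lt_one D.hρ0.le D.hρ1).const_mul D.C).mul_const ‖z 0‖
      simpa using this
    exact squeeze_zero_norm hb hlim
  have hcoord : ∀ n, z n = fun i : Fin (m + 1) => (fun k => z k 0) (n + i) := by
    intro n
    funext i
    rw [hT, he] at hz
    exact orbit_coord hz n i
  have hls2 : IsLS l (fun n => |z n 0|) := by
    rw [isLS_norm m (fun k => z k 0) l]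
    have : (fun n => ‖(fun i : Fin (m + 1) => (fun k => z k 0) (n + i))‖) = fun n => ‖z n‖ := by
      funext n
      rw [← hcoord n]
    rw [this]; exact hls
  have hls3 : IsLS l (fun n => |z n 0 + r n|) := by
    refine hls2.congr' ?_
    refine squeeze_zero_norm (a := fun n => |r n|) (fun n => ?_) ?_
    · rw [Real.norm_eq_abs]
      have := abs_abs_sub_abs_le (z n 0 + r n) (z n 0)
      simpa using this
    · simpa using hr0.abs
  apply isLS_spectrum (ξ := ξ)
  refine hls3.congr' ?_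
  refine Tendsto.congr' ?_ tendsto_const_nhds
  obtain ⟨s, hs1, hs2⟩ := exists_between hl2
  filter_upwards [hls3.1 s hs1] with n hn
  have h1 : |z n 0 + r n| < 1 / 2 := lt_of_le_of_lt hn hs2
  have h2 : round (z n 0 + r n) = 0 := by
    rw [round_eq_zero_iff]
    have := abs_lt.1 h1
    exact ⟨this.1.le, this.2⟩
  have h3 : round (ξ * α ^ n) = - J n 0 := by
    rw [hrn, round_sub_intCast, h2, zero_sub]
  rw [h3, hrn]
  push_cast
  rw [eq_comm, sub_eq_zero]
  congr 1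
  ring

end Main

end Pool.Agent.Helper46.AK
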