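import Pool.Agent.Helper46.AK.Dyn

set_option autoImplicit false

namespace Pool.Agent.Helper46.AK

open Filter Topology

variable {d : ℕ}

namespace HData

variable {D : HData d}

lemma v_l_pos : 0 < D.v D.l := lt_of_lt_of_le one_pos (D.hv D.l)

variable (D) in
/-- the margin constant -/
noncomputable def c0 (t : ℝ) : ℝ := (1 - 2 * t) / (2 * D.v D.l)

lemma c0_pos {t : ℝ} (ht : t < 1 / 2) : 0 < D.c0 t := by
  unfold c0
  have := D.v_l_pos
  apply div_pos <;> linarith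

lemma diff_norm_le {t : ℝ} (ht : t < 1 / 2) {u u' : ℕ → ℤ} {z z' N N'}
    (h : D.Orb u z N t) (h' : D.Orb u' z' N' t) : ‖z' 0 - z 0‖ ≤ 1 := by
  have h1 := h.1 0 (Nat.zero_le _)
  have h2 := h'.1 0 (Nat.zero_le _)
  have := norm_sub_le (z' 0) (z 0)
  linarith

lemma margin_aux {t : ℝ} (ht : t < 1 / 2) {u u' : ℕ → ℤ} {z z' : ℕ → (Fin d → ℝ)} {n : ℕ}
    (h : D.Orb u z (n + 1) t) (h' : D.Orb u' z' (n + 1) t) (hc : ∀ i < n, u' i = u i)
    (hlt : u n < u' n) (hn : D.C * D.ρ ^ (n + 1) ≤ (1 - 2 * t) / 2) :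
    D.φ (z' 0 - z 0) * D.a ^ (n + 1) ≤ - D.c0 t := by
  have h1 := h.diff h' (Nat.le_succ n) hc n le_rfl
  have h2 : z' (n + 1) - z (n + 1) =
      (D.T ^ (n + 1)) (z' 0 - z 0) + ((u' n : ℝ) - u n) • D.e := by
    rw [h.2 n (by omega), h'.2 n (by omega), pow_succ', Module.End.mul_apply, ← h1, map_sub,
      sub_smul]
    abel
  rw [D.Tpow_decomp] at h2
  have h3 := congrFun h2 D.l
  simp only [Pi.sub_apply, Pi.add_apply, Pi.smul_apply, smul_eq_mul, D.hel, mul_one] at h3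
  set x := D.φ (z' 0 - z 0) with hx
  set r := (D.T ^ (n + 1)) ((z' 0 - z 0) - x • D.v) with hr
  have h4 : |r D.l| ≤ D.C * D.ρ ^ (n + 1) := by
    refine (norm_le_pi_norm r D.l).trans ((D.stable _ _).trans ?_)
    have := diff_norm_le ht h h'
    have h5 : 0 ≤ D.C * D.ρ ^ (n + 1) := mul_nonneg D.Cpos.le (pow_nonneg D.hρ0.le _)
    nlinarith
  have h5 : |z' (n + 1) D.l| ≤ t := (norm_le_pi_norm _ D.l).trans (h'.1 (n + 1) le_rfl)
  have h6 : |z (n + 1) D.l| ≤ t := (norm_le_pi_norm _ D.l).trans (h.1 (n + 1) le_rfl)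
  have h7 : (1 : ℝ) ≤ (u' n : ℝ) - u n := by
    have : (u n : ℤ) + 1 ≤ u' n := hlt
    have : ((u n + 1 : ℤ) : ℝ) ≤ (u' n : ℤ) := by exact_mod_cast this
    push_cast at this
    linarith
  have h8 := abs_le.1 h4
  have h9 := abs_le.1 h5
  have h10 := abs_le.1 h6
  have h11 : x * D.a ^ (n + 1) * D.v D.l ≤ - ((1 - 2 * t) / 2) := by
    linarith [h8.1, h9.2, h10.1]
  unfold c0
  have hv := D.v_l_pos
  rw [← mul_le_mul_iff_of_pos_right hv]
  have : -((1 - 2 * t) / (2 * D.v D.l)) * D.v D.l = - ((1 - 2 * t) / 2) := by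
    field_simp
  rw [this]
  exact h11

variable (D) in
/-- block `k` is not extreme -/
def NonExt (t : ℝ) (J k : ℕ) (u : ℕ → ℤ) : Prop :=
  (∃ (u' : ℕ → ℤ) (n : ℕ), D.Adm t ((k + 1) * J) u' ∧ k * J ≤ n ∧ n < (k + 1) * J ∧
    (∀ i < n, u' i = u i) ∧ u n < u' n) ∧
  (∃ (u' : ℕ → ℤ) (n : ℕ), D.Adm t ((k + 1) * J) u' ∧ k * J ≤ n ∧ n < (k + 1) * J ∧
    (∀ i < n, u' i = u i) ∧ u' n < u n)

lemma NonExt.congr {t : ℝ} {J k : ℕ} {u w : ℕ → ℤ} (h : D.NonExt t J k u)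
    (huw : ∀ i < (k + 1) * J, w i = u i) : D.NonExt t J k w := by
  obtain ⟨⟨u1, n1, a1, b1, c1, d1, e1⟩, ⟨u2, n2, a2, b2, c2, d2, e2⟩⟩ := h
  refine ⟨⟨u1, n1, a1, b1, c1, fun i hi => ?_, ?_⟩, ⟨u2, n2, a2, b2, c2, fun i hi => ?_, ?_⟩⟩
  · rw [d1 i hi, huw i (hi.trans c1)]
  · rw [huw n1 c1]; exact e1
  · rw [d2 i hi, huw i (hi.trans c2)]
  · rw [huw n2 c2]; exact e2

lemma margin {t : ℝ} (ht : t < 1 / 2) {u : ℕ → ℤ} {z : ℕ → (Fin d → ℝ)} {J k N : ℕ}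
    (h : D.Orb u z N t) (hN : (k + 1) * J ≤ N) (hne : D.NonExt t J k u)
    (hk : D.C * D.ρ ^ (k * J) ≤ (1 - 2 * t) / 2) :
    ∀ j ≤ k * J, ‖z j‖ ≤ t - D.c0 t * D.a ^ j / D.a ^ ((k + 1) * J) + D.C * D.ρ ^ j := by
  intro j hj
  have hnonempty := D.nonempty
  obtain ⟨⟨u1, n1, ⟨z1, a1⟩, b1, c1, d1, e1⟩, ⟨u2, n2, ⟨z2, a2⟩, b2, c2, d2, e2⟩⟩ := hne
  have hρn : ∀ n, k * J ≤ n → D.C * D.ρ ^ (n + 1) ≤ (1 - 2 * t) / 2 := by
    intro n hn
    refine le_trans ?_ hk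
    have := pow_le_pow_of_le_one D.hρ0.le D.hρ1.le (show k * J ≤ n + 1 by omega)
    have := D.Cpos
    gcongr
  have hapos := D.apos
  have hcpos : 0 < D.c0 t := D.c0_pos ht
  -- general bound
  have gen : ∀ (u' : ℕ → ℤ) (z' : ℕ → (Fin d → ℝ)) (n : ℕ), D.Orb u' z' ((k + 1) * J) t →
      k * J ≤ n → n < (k + 1) * J → (∀ i < n, u' i = u i) →
      ∀ i, |((z' j) i - (z j) i) - D.φ (z' 0 - z 0) * D.a ^ j * D.v i| ≤ D.C * D.ρ ^ j := by
    intro u' z' n ho hkn hnk hc i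
    have h1 := (h.mono hN).diff ho (show n ≤ (k + 1) * J by omega) hc j (by omega)
    rw [D.Tpow_decomp] at h1
    have h2 := congrFun h1 i
    simp only [Pi.sub_apply, Pi.add_apply, Pi.smul_apply, smul_eq_mul] at h2
    rw [h2, add_sub_cancel_left]
    refine (norm_le_pi_norm _ i).trans ((D.stable _ _).trans ?_)
    have := diff_norm_le ht h ho
    have h5 : 0 ≤ D.C * D.ρ ^ j := mul_nonneg D.Cpos.le (pow_nonneg D.hρ0.le _)
    nlinarith
  rw [pi_norm_le_iff_of_nonempty]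
  intro i
  rw [Real.norm_eq_abs, abs_le]
  have hvi := D.hv i
  have haj : 0 < D.a ^ j := pow_pos hapos j
  constructor
  · have g := abs_le.1 (gen u1 z1 n1 a1 b1 c1 d1 i)
    have m := margin_aux ht (h.mono (show n1 + 1 ≤ N by omega)) (a1.mono (by omega)) d1 e1
      (hρn n1 b1)
    have hz1 : -t ≤ (z1 j) i := by
      have := abs_le.1 ((norm_le_pi_norm (z1 j) i).trans (a1.1 j (by nlinarith)))
      exact this.1
    set x := D.φ (z1 0 - z 0)
    have hp : 0 < D.a ^ (n1 + 1) := pow_pos hapos _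
    have hpp : D.a ^ (n1 + 1) ≤ D.a ^ ((k + 1) * J) := pow_le_pow_right₀ D.ha.le (by omega)
    have hx : x ≤ - D.c0 t / D.a ^ ((k + 1) * J) := by
      have h1 : x ≤ - D.c0 t / D.a ^ (n1 + 1) := by rw [le_div_iff₀ hp]; exact m
      refine h1.trans ?_
      rw [neg_div, neg_div, neg_le_neg_iff]
      gcongr
    have hx2 : x * D.a ^ j * D.v i ≤ - (D.c0 t * D.a ^ j / D.a ^ ((k + 1) * J)) := by
      have hxneg : x ≤ 0 := hx.trans (by
        rw [neg_div]; have := div_pos hcpos (hp.trans_le hpp); linarith)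
      have h1 : x * D.a ^ j * D.v i ≤ x * D.a ^ j := by
        have : x * D.a ^ j ≤ 0 := mul_nonpos_of_nonpos_of_nonneg hxneg haj.le
        nlinarith
      have h2 : x * D.a ^ j ≤ - D.c0 t / D.a ^ ((k + 1) * J) * D.a ^ j := by gcongr
      refine h1.trans (h2.trans (le_of_eq ?_))
      ring
    linarith [g.1, g.2]
  · have g := abs_le.1 (gen u2 z2 n2 a2 b2 c2 d2 i)
    have m := margin_aux ht (a2.mono (show n2 + 1 ≤ (k + 1) * J by omega)) (h.mono (by omega))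
      (fun i hi => (d2 i hi).symm) e2 (hρn n2 b2)
    have hz1 : (z2 j) i ≤ t := by
      have := abs_le.1 ((norm_le_pi_norm (z2 j) i).trans (a2.1 j (by nlinarith)))
      exact this.2
    have hneg : D.φ (z 0 - z2 0) = - D.φ (z2 0 - z 0) := by
      rw [← map_neg, neg_sub]
    rw [hneg] at m
    set x := D.φ (z2 0 - z 0)
    have hp : 0 < D.a ^ (n2 + 1) := pow_pos hapos _
    have hpp : D.a ^ (n2 + 1) ≤ D.a ^ ((k + 1) * J) := pow_le_pow_right₀ D.ha.le (by omega)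
    have hx : D.c0 t / D.a ^ ((k + 1) * J) ≤ x := by
      have h1 : D.c0 t / D.a ^ (n2 + 1) ≤ x := by rw [div_le_iff₀ hp]; linarith
      refine le_trans ?_ h1
      gcongr
    have hx2 : D.c0 t * D.a ^ j / D.a ^ ((k + 1) * J) ≤ x * D.a ^ j * D.v i := by
      have hxpos : 0 ≤ x := (div_pos hcpos (hp.trans_le hpp)).le.trans hx
      have h1 : x * D.a ^ j ≤ x * D.a ^ j * D.v i := by
        have : 0 ≤ x * D.a ^ j := mul_nonneg hxpos haj.le
        nlinarith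
      have h2 : D.c0 t / D.a ^ ((k + 1) * J) * D.a ^ j ≤ x * D.a ^ j := by gcongr
      refine le_trans (le_of_eq ?_) (h2.trans h1)
      ring
    linarith [g.1, g.2]

end HData

end Pool.Agent.Helper46.AK
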