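import Pool.Agent.Helper46.AK.LC

set_option autoImplicit false

namespace Pool.Agent.Helper46.AK

open Filter Topology

variable {d : ℕ}

lemma exists_large (A b : ℝ) (hb : 0 < b) : ∃ ℓ : ℕ, 1 ≤ ℓ ∧ A * (ℓ : ℝ) ^ 2 < Real.exp (b * ℓ) := by
  have h := isLittleO_pow_exp_pos_mul_atTop 2 hb
  have hA : (0 : ℝ) < 1 / (|A| + 1) := by positivity
  have h1 := h.def hA
  have h2 := (tendsto_natCast_atTop_atTop (R := ℝ)).eventually h1
  obtain ⟨ℓ, h3, h4⟩ := (h2.and (eventually_ge_atTop 1)).exists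
  refine ⟨ℓ, h4, ?_⟩
  rw [Real.norm_of_nonneg (by positivity), Real.norm_of_nonneg (Real.exp_pos _).le, div_mul_eq_mul_div,
    one_mul, le_div_iff₀ (by positivity)] at h3
  have h5 : (0 : ℝ) < (ℓ : ℝ) ^ 2 := by
    have : (0 : ℝ) < ℓ := by exact_mod_cast h4
    positivity
  have h6 : A ≤ |A| := le_abs_self A
  nlinarith

namespace HData

variable {D : HData d}

/-- for a suitable block length at least half of the words have few extreme blocks. -/
lemma bad_small {t : ℝ} (ht : 0 ≤ t) (hpos : 0 < h (D := D) ht) (q : ℕ) :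
    ∃ J : ℕ, 0 < J ∧ ∀ K : ℕ, 1 ≤ K → ∀ B : Finset (ℕ → ℤ), B ⊆ D.LF t (K * J) →
      (∀ u ∈ B, K < 2 * ((q + 1) * (D.ext t J K u).card)) →
      2 * B.card ≤ D.W t (K * J) := by
  classical
  set hh := h (D := D) ht with hhh
  set θ : ℝ := 1 / (2 * (q + 1)) with hθ
  have hθ0 : 0 < θ := by positivity
  have hθ1 : θ ≤ 1 / 2 := by
    rw [hθ]
    apply div_le_div_of_nonneg_left <;> norm_num
  have hev1 : ∀ᶠ N : ℕ in atTop, Real.log (D.W t N) / N < hh + θ * hh / 2 :=
    (h_tendsto ht).eventually (gt_mem_nhds (by have := mul_pos hθ0 hpos; linarith))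
  have hev2 : ∀ᶠ N : ℕ in atTop, 2 * Real.log 6 / (θ * hh) ≤ N :=
    (tendsto_natCast_atTop_atTop (R := ℝ)).eventually (eventually_ge_atTop _)
  obtain ⟨J, ⟨hJ1, hJ2⟩, hJ0⟩ := ((hev1.and hev2).and (eventually_ge_atTop 1)).exists
  refine ⟨J, hJ0, fun K hK B hB hext => ?_⟩
  have hJpos : (0 : ℝ) < J := by exact_mod_cast hJ0
  have hKpos : (1 : ℝ) ≤ K := by exact_mod_cast hK
  rw [div_lt_iff₀ hJpos] at hJ1
  rw [div_le_iff₀ (by positivity)] at hJ2
  set M := D.W t J with hM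
  have hM1 : 1 ≤ M := W_pos ht J
  set m := K / (2 * (q + 1)) + 1 with hm
  have hBsub : B ⊆ (D.LF t (K * J)).filter (fun u => m ≤ (D.ext t J K u).card) := by
    intro u hu
    rw [Finset.mem_filter]
    refine ⟨hB hu, ?_⟩
    have h1 := hext u hu
    rw [hm]
    have : K / (2 * (q + 1)) < (D.ext t J K u).card := by
      rw [Nat.div_lt_iff_lt_mul (by omega)]
      calc K < 2 * ((q + 1) * (D.ext t J K u).card) := h1
        _ = (D.ext t J K u).card * (2 * (q + 1)) := by ring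
    omega
  have hcount := count_bad (D := D) t J M le_rfl hM1 K m
  have hBc : B.card * M ^ m ≤ (3 * M) ^ K :=
    (Nat.mul_le_mul_right _ (Finset.card_le_card hBsub)).trans hcount
  rcases Nat.eq_zero_or_pos B.card with h0 | hBpos
  · rw [h0]; omega
  have hBposR : (0 : ℝ) < B.card := by exact_mod_cast hBpos
  have hMposR : (1 : ℝ) ≤ M := by exact_mod_cast hM1
  have hMpos : (0 : ℝ) < M := by linarith
  have hlog1 : Real.log B.card + m * Real.log M ≤ K * Real.log 3 + K * Real.log M := by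
    have h1 : (B.card : ℝ) * (M : ℝ) ^ m ≤ (3 * M) ^ K := by exact_mod_cast hBc
    have h2 := Real.log_le_log (by positivity) h1
    rw [Real.log_mul hBposR.ne' (by positivity), Real.log_pow, Real.log_pow,
      Real.log_mul (by norm_num) hMpos.ne'] at h2
    linarith
  have hmθ : θ * K ≤ m := by
    have h1 : K < m * (2 * (q + 1)) := by
      have := Nat.lt_div_mul_add (a := K) (b := 2 * (q + 1)) (by omega)
      rw [hm, add_mul]
      omega
    have h2 : (K : ℝ) ≤ m * (2 * (q + 1)) := by exact_mod_cast h1.le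
    rw [hθ, div_mul_eq_mul_div, one_mul, div_le_iff₀ (by positivity)]
    exact h2
  have hlogM0 : 0 ≤ Real.log M := Real.log_nonneg hMposR
  have hlog2 : Real.log B.card ≤ K * Real.log 3 + (1 - θ) * K * Real.log M := by
    have : θ * K * Real.log M ≤ m * Real.log M := mul_le_mul_of_nonneg_right hmθ hlogM0
    linarith
  have hlog3 : (1 - θ) * K * Real.log M ≤ (1 - θ) * K * ((hh + θ * hh / 2) * J) := by
    apply mul_le_mul_of_nonneg_left hJ1.le
    have : 0 ≤ 1 - θ := by linarith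
    positivity
  have hlog4 : (1 - θ) * K * ((hh + θ * hh / 2) * J) ≤ (1 - θ / 2) * hh * J * K := by
    have h1 : (1 - θ) * (hh + θ * hh / 2) ≤ (1 - θ / 2) * hh := by
      have := mul_pos (mul_pos hθ0 hθ0) hpos
      nlinarith
    have h2 : 0 ≤ (K : ℝ) * J := by positivity
    nlinarith [mul_le_mul_of_nonneg_right h1 h2]
  have hlog6 : Real.log 6 = Real.log 2 + Real.log 3 := by
    rw [← Real.log_mul (by norm_num) (by norm_num)]; norm_num
  have hlog5 : Real.log 2 + Real.log B.card ≤ hh * (K * J : ℕ) := by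
    have h1 : Real.log 2 + K * Real.log 3 ≤ K * Real.log 6 := by
      rw [hlog6]
      have : 0 ≤ Real.log 2 := Real.log_nonneg (by norm_num)
      nlinarith
    have h2 : (K : ℝ) * Real.log 6 ≤ θ / 2 * hh * J * K := by nlinarith
    push_cast
    nlinarith
  have hfin : Real.log (2 * B.card) ≤ Real.log (D.W t (K * J)) := by
    rw [Real.log_mul (by norm_num) hBposR.ne']
    exact hlog5.trans (h_mul_le ht _)
  have hWpos : (0 : ℝ) < D.W t (K * J) := by exact_mod_cast W_pos ht (K * J)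
  have := (Real.log_le_log_iff (by positivity) hWpos).1 hfin
  exact_mod_cast this

/-- upper bound for the number of words -/
lemma W_upper {t : ℝ} (ht : 0 ≤ t) (hpos : 0 < h (D := D) ht) {θ : ℝ} (hθ : 0 < θ) :
    ∃ C' : ℝ, 0 ≤ C' ∧ ∀ N : ℕ, Real.log (D.W t N) ≤ (1 + θ) * h (D := D) ht * N + C' := by
  set hh := h (D := D) ht with hhh
  have hev1 : ∀ᶠ N : ℕ in atTop, Real.log (D.W t N) / N < (1 + θ) * hh :=
    (h_tendsto ht).eventually (gt_mem_nhds (by have := mul_pos hθ hpos; linarith))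
  obtain ⟨N0, hN0⟩ := eventually_atTop.1 hev1
  have hlog0 : ∀ N, 0 ≤ Real.log (D.W t N) := fun N => Real.log_nonneg (by
    exact_mod_cast W_pos ht N)
  refine ⟨∑ N ∈ Finset.range (N0 + 1), Real.log (D.W t N), Finset.sum_nonneg fun N _ => hlog0 N,
    fun N => ?_⟩
  have hS : 0 ≤ ∑ N ∈ Finset.range (N0 + 1), Real.log (D.W t N) :=
    Finset.sum_nonneg fun N _ => hlog0 N
  by_cases hN : N < N0 + 1
  · have h1 := Finset.single_le_sum (f := fun N => Real.log (D.W t N)) (fun i _ => hlog0 i)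
      (Finset.mem_range.2 hN)
    have h2 : 0 ≤ (1 + θ) * hh * N := by positivity
    linarith
  · have hNpos : (0 : ℝ) < N := by
      have : 0 < N := by omega
      exact_mod_cast this
    have h1 := hN0 N (by omega)
    rw [div_lt_iff₀ hNpos] at h1
    linarith

/-- The pair of words. -/
lemma exists_pair {t : ℝ} (ht : 0 ≤ t) (ht2 : t < 1 / 2) (hpos : 0 < h (D := D) ht) :
    ∃ μ : ℝ, 0 < μ ∧ ∀ δ : ℝ, 0 < δ → ∃ (L : ℕ) (V : Bool → ℕ → ℤ)
      (z : Bool → ℕ → (Fin d → ℝ)), 0 < L ∧ (∀ b, D.Orb (V b) (z b) L t) ∧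
      (∃ n < L, V true n ≠ V false n) ∧
      (∀ b, ∀ j ≤ L, ‖z b j‖ ≤ t - μ * D.ρ ^ j ∧ ‖z b j‖ ≤ t - μ / D.a ^ (L - j)) ∧
      (∀ b b', ‖z b L - z b' 0‖ ≤ δ) := by
  classical
  -- q
  obtain ⟨q0, hq0⟩ := exists_pow_lt_of_lt_one (show 0 < 1 / D.a from one_div_pos.2 D.apos) D.hρ1
  set q := q0 + 1 with hqdef
  have hq : D.ρ ^ q ≤ 1 / D.a := by
    refine le_trans ?_ hq0.le
    exact pow_le_pow_of_le_one D.hρ0.le D.hρ1.le (by omega)
  obtain ⟨J, hJ, hbad⟩ := bad_small ht hpos q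
  set hh := h (D := D) ht with hhh
  have hκ := D.kap_pos ht2 J
  refine ⟨D.kap t J / 2, by linarith, fun δ hδ => ?_⟩
  -- i0
  obtain ⟨i0, hi0⟩ := exists_pow_lt_of_lt_one (show 0 < min (D.kap t J / 2) ((1 - 2 * t) / 2) / D.C
    from div_pos (lt_min (by linarith) (by linarith)) D.Cpos) D.hρ1
  have hi0' : ∀ i, i0 ≤ i → D.C * D.ρ ^ (i * J) ≤ min (D.kap t J / 2) ((1 - 2 * t) / 2) := by
    intro i hi
    rw [lt_div_iff₀ D.Cpos] at hi0
    have h1 : D.ρ ^ (i * J) ≤ D.ρ ^ i0 :=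
      pow_le_pow_of_le_one D.hρ0.le D.hρ1.le (by nlinarith)
    have := D.Cpos
    nlinarith
  -- cells
  obtain ⟨S, hSsub, hSfin, hScov⟩ := (isCompact_closedBall (0 : Fin d → ℝ) t).finite_cover_balls
    (show 0 < δ / 2 by linarith)
  set cs : Finset (Fin d → ℝ) := hSfin.toFinset with hcs
  have hcell : ∀ x : Fin d → ℝ, ‖x‖ ≤ t → ∃ c ∈ cs, dist x c < δ / 2 := by
    intro x hx
    have hx' : x ∈ Metric.closedBall (0 : Fin d → ℝ) t := by simpa using hx
    have := hScov hx'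
    rw [Set.mem_iUnion₂] at this
    obtain ⟨c, hc1, hc2⟩ := this
    exact ⟨c, hSfin.mem_toFinset.2 hc1, hc2⟩
  choose! cell hcell1 hcell2 using hcell
  have hcs0 : 0 < cs.card := Finset.card_pos.2 ⟨_, hcell1 0 (by simpa using ht)⟩
  set Cc := cs.card with hCc
  have hCcR : (1 : ℝ) ≤ Cc := by exact_mod_cast hcs0
  set θ : ℝ := 1 / (4 * Cc) with hθ
  have hθ0 : 0 < θ := by positivity
  obtain ⟨C', hC'0, hC'⟩ := W_upper ht hpos hθ0
  -- choose ℓ
  have hJR : (0 : ℝ) < J := by exact_mod_cast hJ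
  set Bc : ℝ := 2 * (Cc + 1 + i0) with hBc
  obtain ⟨ℓ, hℓ1, hℓ2⟩ := exists_large
    (2 * Bc ^ 2 * Cc * Real.exp (hh * J * (1 + i0) + 2 * C')) (hh * J / 2) (by positivity)
  have hℓR : (1 : ℝ) ≤ ℓ := by exact_mod_cast hℓ1
  set K := 2 * (Cc * ℓ + 1 + i0) with hK
  have hK1 : 1 ≤ K := by omega
  -- fine words
  set F := (D.LF t (K * J)).filter (fun u => 2 * ((q + 1) * (D.ext t J K u).card) ≤ K) with hF
  have hFcard : D.W t (K * J) ≤ 2 * F.card := by
    have h1 := hbad K hK1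
      ((D.LF t (K * J)).filter (fun u => ¬ 2 * ((q + 1) * (D.ext t J K u).card) ≤ K))
      (Finset.filter_subset _ _) (fun u hu => by
        rw [Finset.mem_filter] at hu; omega)
    have h2 : F.card + ((D.LF t (K * J)).filter
        (fun u => ¬ 2 * ((q + 1) * (D.ext t J K u).card) ≤ K)).card = (D.LF t (K * J)).card := by
      rw [hF]
      convert Finset.card_filter_add_card_filter_not (s := D.LF t (K * J))
        (fun u => 2 * ((q + 1) * (D.ext t J K u).card) ≤ K)
    rw [card_LF] at h2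
    omega
  -- for each fine word an orbit and a triple
  have hstep : ∀ u ∈ F, ∃ (z : ℕ → (Fin d → ℝ)) (i1 i2 : ℕ), D.Orb u z (K * J) t ∧
      i0 ≤ i1 ∧ i1 + ℓ ≤ i2 ∧ i2 < K ∧ Good q K (D.ext t J K u) i1 ∧
      Good q K (D.ext t J K u) i2 ∧ cell (z (i1 * J)) = cell (z (i2 * J)) := by
    intro u hu
    rw [hF, Finset.mem_filter, mem_LF] at hu
    obtain ⟨z, hz⟩ := hu.1.1
    have hG := goodset_card q K (D.ext t J K u) hu.2
    set G := ((Finset.range K).filter (fun i => Good q K (D.ext t J K u) i)) \ Finset.range i0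
      with hGdef
    have hGcard : Cc * ℓ < G.card := by
      have h1 : ((Finset.range K).filter (fun i => Good q K (D.ext t J K u) i)).card -
          (Finset.range i0).card ≤ G.card := by
        rw [hGdef]
        convert Finset.le_card_sdiff (Finset.range i0)
          ((Finset.range K).filter (fun i => Good q K (D.ext t J K u) i))
      rw [Finset.card_range] at h1
      omega
    have hGmem : ∀ i ∈ G, i < K ∧ Good q K (D.ext t J K u) i ∧ i0 ≤ i := by
      intro i hi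
      rw [hGdef, Finset.mem_sdiff, Finset.mem_filter, Finset.mem_range, Finset.mem_range] at hi
      exact ⟨hi.1.1, hi.1.2, not_lt.1 hi.2⟩
    have hmaps : ∀ i ∈ G, cell (z (i * J)) ∈ cs := by
      intro i hi
      exact hcell1 _ (hz.1 _ (Nat.mul_le_mul_right _ (hGmem i hi).1.le))
    obtain ⟨c, hc1, hc2⟩ := Finset.exists_lt_card_fiber_of_mul_lt_card_of_maps_to hmaps hGcard
    set Fi := G.filter (fun i => cell (z (i * J)) = c) with hFi
    have hne : Fi.Nonempty := Finset.card_pos.1 (by omega)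
    have hmin := Finset.mem_filter.1 (Finset.min'_mem Fi hne)
    have hmax := Finset.mem_filter.1 (Finset.max'_mem Fi hne)
    refine ⟨z, Fi.min' hne, Fi.max' hne, hz, (hGmem _ hmin.1).2.2, ?_, (hGmem _ hmax.1).1,
      (hGmem _ hmin.1).2.1, (hGmem _ hmax.1).2.1, ?_⟩
    · have : Fi ⊆ Finset.Icc (Fi.min' hne) (Fi.max' hne) := by
        intro i hi
        rw [Finset.mem_Icc]
        exact ⟨Finset.min'_le _ _ hi, Finset.le_max' _ _ hi⟩
      have := Finset.card_le_card this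
      rw [Nat.card_Icc] at this
      omega
    · rw [hmin.2, hmax.2]
  choose! zz I1 I2 hs1 hs2 hs3 hs4 hs5 hs6 hs7 using hstep
  -- numerical bound
  set n : ℕ := ⌊Real.exp ((1 + θ) * hh * ((K - ℓ) * J) + 2 * C')⌋₊ with hn
  have hKR : (K : ℝ) = 2 * (Cc * ℓ + 1 + i0) := by rw [hK]; push_cast; ring
  have hprod : ∀ i1 i2 : ℕ, i1 + ℓ ≤ i2 → i2 < K →
      D.W t (i1 * J) * D.W t ((K - i2) * J) ≤ n := by
    intro i1 i2 h1 h2
    rw [hn]
    apply Nat.le_floor
    push_cast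
    have hp1 : (0 : ℝ) < D.W t (i1 * J) := by exact_mod_cast W_pos ht _
    have hp2 : (0 : ℝ) < D.W t ((K - i2) * J) := by exact_mod_cast W_pos ht _
    rw [← Real.log_le_iff_le_exp (by positivity), Real.log_mul hp1.ne' hp2.ne']
    have b1 := hC' (i1 * J)
    have b2 := hC' ((K - i2) * J)
    have e1 : ((K - i2 : ℕ) : ℝ) = K - i2 := by rw [Nat.cast_sub h2.le]
    push_cast at b1 b2
    rw [e1] at b2
    have e2 : (i1 : ℝ) + ℓ ≤ i2 := by exact_mod_cast h1
    have e3 : (1 + θ) * hh * (i1 * J) + (1 + θ) * hh * ((K - i2) * J) ≤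
        (1 + θ) * hh * ((K - ℓ) * J) := by
      have e4 : 0 ≤ (1 + θ) * hh * J := by positivity
      nlinarith
    linarith
  have hmain : (K * K * Cc) * n < F.card := by
    have h1 : (n : ℝ) ≤ Real.exp ((1 + θ) * hh * ((K - ℓ) * J) + 2 * C') :=
      Nat.floor_le (Real.exp_pos _).le
    have h2 : hh * (K * J) ≤ Real.log (D.W t (K * J)) := by
      have := h_mul_le (D := D) ht (K * J)
      push_cast at this
      exact this
    have h3 : Real.exp (hh * (K * J)) ≤ D.W t (K * J) := by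
      rw [← Real.le_log_iff_exp_le (by exact_mod_cast W_pos ht _)]
      exact h2
    have h4 : (D.W t (K * J) : ℝ) ≤ 2 * F.card := by exact_mod_cast hFcard
    have h5 : (1 + θ) * hh * ((K - ℓ) * J) + 2 * C' ≤
        hh * (K * J) - hh * J / 2 * ℓ + (hh * J * (1 + i0) + 2 * C') := by
      have e1 : θ * K = ℓ / 2 + (1 + i0) / (2 * Cc) := by
        rw [hKR, hθ]
        field_simp
        ring
      have e2 : (1 + (i0 : ℝ)) / (2 * Cc) ≤ 1 + i0 := by
        rw [div_le_iff₀ (by positivity)]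
        have : (0 : ℝ) ≤ 1 + i0 := by positivity
        nlinarith
      have e3 : (1 + θ) * (K - ℓ) ≤ K - ℓ / 2 + (1 + i0) := by
        have : 0 ≤ θ * ℓ := by positivity
        nlinarith
      have e4 : 0 ≤ hh * J := by positivity
      nlinarith [mul_le_mul_of_nonneg_left e3 e4]
    have h6 : Real.exp ((1 + θ) * hh * ((K - ℓ) * J) + 2 * C') * Real.exp (hh * J / 2 * ℓ) ≤
        Real.exp (hh * (K * J)) * Real.exp (hh * J * (1 + i0) + 2 * C') := by
      rw [← Real.exp_add, ← Real.exp_add, Real.exp_le_exp]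
      linarith
    have h7 : (K : ℝ) ≤ Bc * ℓ := by
      rw [hKR, hBc]
      have : (0 : ℝ) ≤ 1 + i0 := by positivity
      nlinarith
    have h8 : (K : ℝ) ^ 2 ≤ Bc ^ 2 * ℓ ^ 2 := by
      rw [← mul_pow]
      have : (0 : ℝ) ≤ K := by positivity
      gcongr
    set X := Real.exp ((1 + θ) * hh * ((K - ℓ) * J) + 2 * C')
    set Y := Real.exp (hh * J / 2 * ℓ)
    set Z := Real.exp (hh * (K * J))
    set E' := Real.exp (hh * J * (1 + i0) + 2 * C')
    have hX : 0 < X := Real.exp_pos _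
    have hY : 0 < Y := Real.exp_pos _
    have hZ : 0 < Z := Real.exp_pos _
    have hE : 0 < E' := Real.exp_pos _
    have h9 : (2 * (K : ℝ) ^ 2 * Cc) * X < Z := by
      have a1 : (2 * (K : ℝ) ^ 2 * Cc) * E' < Y := by
        refine lt_of_le_of_lt ?_ hℓ2
        have : (2 * (K : ℝ) ^ 2 * Cc) * E' = 2 * Cc * E' * (K : ℝ) ^ 2 := by ring
        rw [this]
        have : 2 * Bc ^ 2 * Cc * E' * (ℓ : ℝ) ^ 2 = 2 * Cc * E' * (Bc ^ 2 * (ℓ : ℝ) ^ 2) := by ring
        rw [this]
        gcongr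
      have hKpos : (0 : ℝ) < K := by exact_mod_cast hK1
      have a2 : (2 * (K : ℝ) ^ 2 * Cc) * X * Y ≤ (2 * (K : ℝ) ^ 2 * Cc) * (Z * E') := by
        rw [mul_assoc]
        gcongr
      have a3 : (2 * (K : ℝ) ^ 2 * Cc) * (Z * E') < Z * Y := by
        have : (2 * (K : ℝ) ^ 2 * Cc) * (Z * E') = Z * ((2 * (K : ℝ) ^ 2 * Cc) * E') := by ring
        rw [this]
        gcongr
      exact lt_of_mul_lt_mul_right (a2.trans_lt a3) hY.le
    have h10 : (((K * K * Cc) * n : ℕ) : ℝ) < F.card := by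
      push_cast
      have hKpos : (0 : ℝ) < K := by exact_mod_cast hK1
      have : (K : ℝ) * K * Cc * n ≤ K * K * Cc * X := by gcongr
      nlinarith
    exact_mod_cast h10
  -- pigeonhole on triples
  set Tr := (Finset.range K) ×ˢ (Finset.range K) ×ˢ cs with hTr
  have hTrcard : Tr.card = K * K * Cc := by
    rw [hTr, Finset.card_product, Finset.card_product, Finset.card_range]; ring
  have hmaps : ∀ u ∈ F, (I1 u, I2 u, cell (zz u (I1 u * J))) ∈ Tr := by
    intro u hu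
    rw [hTr, Finset.mem_product, Finset.mem_product, Finset.mem_range, Finset.mem_range]
    have := hs3 u hu
    have := hs4 u hu
    refine ⟨by simp only; omega, by simp only; omega, hcell1 _ ?_⟩
    exact (hs1 u hu).1 _ (Nat.mul_le_mul_right _ (by omega))
  rw [← hTrcard] at hmain
  obtain ⟨⟨i1, i2, c⟩, hy1, hy2⟩ := Finset.exists_lt_card_fiber_of_mul_lt_card_of_maps_to hmaps hmain
  set Fib := F.filter (fun u => (I1 u, I2 u, cell (zz u (I1 u * J))) = (i1, i2, c)) with hFib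
  have hFibne : Fib.Nonempty := Finset.card_pos.1 (by omega)
  have hFibmem : ∀ u ∈ Fib, u ∈ F ∧ I1 u = i1 ∧ I2 u = i2 ∧ cell (zz u (i1 * J)) = c := by
    intro u hu
    rw [hFib, Finset.mem_filter, Prod.mk.injEq, Prod.mk.injEq] at hu
    obtain ⟨h1, h2, h3, h4⟩ := hu
    refine ⟨h1, h2, h3, ?_⟩
    rw [← h2]; exact h4
  have hi12 : i1 + ℓ ≤ i2 ∧ i2 < K ∧ i0 ≤ i1 := by
    obtain ⟨u, hu⟩ := hFibne
    obtain ⟨h1, h2, h3, h4⟩ := hFibmem u hu
    rw [← h2, ← h3]
    exact ⟨hs3 u h1, hs4 u h1, hs2 u h1⟩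
  obtain ⟨hi12a, hi12b, hi12c⟩ := hi12
  -- second pigeonhole
  have hcard2 : ((D.LF t (i1 * J)) ×ˢ (D.LF t ((K - i2) * J))).card < Fib.card := by
    rw [Finset.card_product, card_LF, card_LF]
    exact (hprod i1 i2 hi12a hi12b).trans_lt hy2
  have hKi2 : (K - i2) * J = K * J - i2 * J := Nat.sub_mul _ _ _
  have hi2K : i2 * J ≤ K * J := Nat.mul_le_mul_right _ hi12b.le
  have hi1i2 : i1 * J + ℓ * J ≤ i2 * J := by rw [← add_mul]; exact Nat.mul_le_mul_right _ hi12a
  have hℓJ : 0 < ℓ * J := Nat.mul_pos hℓ1 hJ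
  have hmaps2 : ∀ u ∈ Fib, (tr (i1 * J) u, tr ((K - i2) * J) (sh (i2 * J) u)) ∈
      (D.LF t (i1 * J)) ×ˢ (D.LF t ((K - i2) * J)) := by
    intro u hu
    obtain ⟨h1, h2, h3, h4⟩ := hFibmem u hu
    rw [Finset.mem_product, mem_LF, mem_LF]
    have ho : D.Adm t (K * J) u := ⟨_, hs1 u h1⟩
    refine ⟨tr_mem (ho.mono (by omega)), tr_mem ?_⟩
    apply Adm.shift
    have : i2 * J + (K - i2) * J = K * J := by omega
    rw [this]; exact ho
  obtain ⟨u, hu, u', hu', huu, heq⟩ := Finset.exists_ne_map_eq_of_card_lt_of_maps_to hcard2 hmaps2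
  simp only [Prod.mk.injEq] at heq
  obtain ⟨h1, h2, h3, h4⟩ := hFibmem u hu
  obtain ⟨h1', h2', h3', h4'⟩ := hFibmem u' hu'
  have ho := hs1 u h1
  have ho' := hs1 u' h1'
  have g1 := hs5 u h1
  have g2 := hs6 u h1
  have g1' := hs5 u' h1'
  have g2' := hs6 u' h1'
  have c1 := hs7 u h1
  have c1' := hs7 u' h1'
  rw [h2] at g1 c1
  rw [h3] at g2 c1
  rw [h2'] at g1' c1'
  rw [h3'] at g2' c1'
  set L := i2 * J - i1 * J with hL
  have hLpos : 0 < L := by omega
  have hiL : i1 * J + L = i2 * J := by omega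
  have hmin := hi0' i1 hi12c
  have hm1 : D.C * D.ρ ^ (i1 * J) ≤ D.kap t J / 2 := hmin.trans (min_le_left _ _)
  have hm2 : D.C * D.ρ ^ (i1 * J) ≤ (1 - 2 * t) / 2 := hmin.trans (min_le_right _ _)
  have M1 := margins ht2 hJ ho hq (Nat.succ_pos _) (by omega) hi12b g1 g2 hm1 hm2
  have M2 := margins ht2 hJ ho' hq (Nat.succ_pos _) (by omega) hi12b g1' g2' hm1 hm2
  have hdiff : ∃ n, i1 * J ≤ n ∧ n < i2 * J ∧ u n ≠ u' n := by
    by_contra hcon
    push Not at hcon
    apply huu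
    funext n
    by_cases n1 : n < i1 * J
    · have := congrFun heq.1 n
      simpa [tr, n1] using this
    · by_cases n2 : n < i2 * J
      · exact hcon n (by omega) n2
      · by_cases n3 : n < K * J
        · have := congrFun heq.2 (n - i2 * J)
          have e : i2 * J + (n - i2 * J) = n := by omega
          have e2 : n - i2 * J < (K - i2) * J := by omega
          simpa [tr, sh, e, e2] using this
        · rw [hF, Finset.mem_filter, mem_LF] at h1 h1'
          rw [h1.1.2 n (by omega), h1'.1.2 n (by omega)]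
  have hclose : ∀ x y : Fin d → ℝ, ‖x‖ ≤ t → ‖y‖ ≤ t → cell x = c → cell y = c →
      ‖x - y‖ ≤ δ := by
    intro x y hx hy hxc hyc
    have a1 := hcell2 x hx
    have a2 := hcell2 y hy
    rw [hxc] at a1
    rw [hyc] at a2
    rw [← dist_eq_norm]
    have := dist_triangle_right x y c
    linarith
  have ti1 : ‖zz u (i1 * J)‖ ≤ t := ho.1 _ (by omega)
  have ti2 : ‖zz u (i2 * J)‖ ≤ t := ho.1 _ (by omega)
  have ti1' : ‖zz u' (i1 * J)‖ ≤ t := ho'.1 _ (by omega)
  have ti2' : ‖zz u' (i2 * J)‖ ≤ t := ho'.1 _ (by omega)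
  refine ⟨L, fun b => if b then sh (i1 * J) u else sh (i1 * J) u',
    fun b n => if b then zz u (i1 * J + n) else zz u' (i1 * J + n), hLpos, ?_, ?_, ?_, ?_⟩
  · intro b
    cases b
    · exact (ho'.mono (show i1 * J + L ≤ K * J by omega)).shift
    · exact (ho.mono (show i1 * J + L ≤ K * J by omega)).shift
  · obtain ⟨n, n1, n2, n3⟩ := hdiff
    refine ⟨n - i1 * J, by omega, ?_⟩
    have e : i1 * J + (n - i1 * J) = n := by omega
    simpa [sh, e] using n3
  · intro b j hj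
    have e1 : i1 * J + j - i1 * J = j := by omega
    have e2 : i2 * J - (i1 * J + j) = L - j := by omega
    cases b
    · have := M2 (i1 * J + j) (by omega) (by omega)
      rw [e1, e2] at this
      exact this
    · have := M1 (i1 * J + j) (by omega) (by omega)
      rw [e1, e2] at this
      exact this
  · intro b b'
    cases b <;> cases b' <;> simp only [Bool.false_eq_true, if_true, if_false, add_zero, hiL]
    · exact hclose _ _ ti2' ti1' (c1' ▸ h4') h4'
    · exact hclose _ _ ti2' ti1 (c1' ▸ h4') h4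
    · exact hclose _ _ ti2 ti1' (c1 ▸ h4) h4'
    · exact hclose _ _ ti2 ti1 (c1 ▸ h4) h4

end HData

end Pool.Agent.Helper46.AK
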